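import Pool.Agent.N661.QB.Stm
import Pool.Agent.N645.BHISOH

/-!
# Project QB: differential equations along rays
-/

set_option autoImplicit false
open MeasureTheory Filter Topology Complex
open scoped ContDiff

namespace Pool.Agent.N93.QB

open Pool.Agent.W745.RW (dx dy TF CC)
open Pool.Agent.TH294.RS (dd db DP DM)
open Pool.Agent.Y265.RW (int_mul)
open Pool.Agent.Y265.HY (M2C)
open Pool.Agent.N661.BH (mv)
open Pool.Agent.N645.BH
open Pool.Agent.N661.QB (SY0 Sys S_DER1)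

theorem DER1 : S_DER1 := by
  intro B h w H φ hφ v
  obtain ⟨U, K', δ, M, c⟩ := cfe H.op hφ
  have hφU : TF U φ := ⟨hφ.1, hφ.2.1, c.sU⟩
  have hUB : U ⊆ B := c.UK.trans c.KB
  have hsm := sm H.hlim H.hpos c.dp v
  have hG : ∀ n, ContinuousOn (w 0 n) U := fun n => ((H.bd 0).co n).mono hUB
  obtain ⟨A0', hA0'⟩ := (H.bd 0).lb.bd K' c.hK c.KB
  have hGb : ∀ᶠ n in atTop, ∫ z, |φ z| * ‖w 0 n z‖ ^ 2 ≤ 2 * M * A0' := by
    filter_upwards [hA0'] with n hn
    have := c.bd (s := 0) (v := 0) (by simpa using c.dp.le) ((H.bd 0).co n)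
    simp only [mv_zero] at this
    exact this.trans (mul_le_mul_of_nonneg_left hn (mul_nonneg (by norm_num) c.M0))
  set AG : ℝ := 2 * M * A0' with hAG
  set P : (ℕ → ℂ → ℂ) → ℕ → ℝ → ℂ := fun f n t =>
    ∫ z, (φ z : ℂ) * (w 0 n z * f n (mv (t * h n) v z)) with hP
  set P' : ℕ → ℤ → ℝ → ℂ := fun n k t =>
    ∫ z, (φ z : ℂ) * (w 0 n z * fderiv ℝ (w k n) (mv (t * h n) v z) (((h n * z.im : ℝ) : ℂ) * v))
    with hP'
  have hPb : ∀ (f : ℕ → ℂ → ℂ) (Cf : ℝ), (∀ n, ContinuousOn (f n) B) →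
      (∀ᶠ n in atTop, ∫ z in K', ‖f n z‖ ^ 2 ≤ Cf) →
      ∀ᶠ n in atTop, ∀ t ∈ Set.Icc (0 : ℝ) 1, ‖P f n t‖ ≤ AG + 2 * M * Cf := by
    intro f Cf hf hCf
    filter_upwards [hGb, hsm, hCf] with n h2 h3 h4 t ht
    have ht2 : |t| ≤ 2 := by rw [abs_of_nonneg ht.1]; linarith [ht.2]
    have h5 := c.co (h3 t ht2) (hf n)
    refine (pair_bd c.hU hφU (hG n) h5).trans (add_le_add h2 ?_)
    exact (c.bd (h3 t ht2) (hf n)).trans (mul_le_mul_of_nonneg_left h4
      (mul_nonneg (by norm_num) c.M0))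
  refine ⟨P', fun k => ?_, fun k => ?_⟩
  · obtain ⟨Ck, hCk⟩ := (H.bd k).lb.bd K' c.hK c.KB
    exact ⟨AG + 2 * M * Ck, hPb (w k) Ck (fun n => (H.bd k).co n) hCk⟩
  · obtain ⟨e, he, he'⟩ := H.up k
    obtain ⟨e2, he2, he2'⟩ := H.dn k
    obtain ⟨C1, hC1⟩ := he.lb.bd K' c.hK c.KB
    obtain ⟨C2, hC2⟩ := he2.lb.bd K' c.hK c.KB
    obtain ⟨A1, hA1⟩ := (H.bd (k + 1)).lb.bd K' c.hK c.KB
    obtain ⟨A2, hA2⟩ := (H.bd (k - 1)).lb.bd K' c.hK c.KB
    have b1 := hPb (w (k + 1)) A1 (fun n => (H.bd (k + 1)).co n) hA1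
    have b2 := hPb (w (k - 1)) A2 (fun n => (H.bd (k - 1)).co n) hA2
    have b3 := hPb e C1 (fun n => he.co n) hC1
    have b4 := hPb e2 C2 (fun n => he2.co n) hC2
    refine ⟨2 * ‖v‖ * (‖v‖ / 2 * ((AG + 2 * M * A1) + (AG + 2 * M * A2))) +
      2 * (‖v‖ / 2 * ((AG + 2 * M * C1) + (AG + 2 * M * C2))), ?_⟩
    filter_upwards [hsm, b1, b2, b3, b4] with n h3 g1 g2 g3 g4 t ht
    have h1 := hG n
    have ht2 : |t| ≤ 2 := by rw [abs_of_nonneg ht.1]; linarith [ht.2]
    have hs := h3 t ht2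
    have hsB : ∀ z ∈ U, mv (t * h n) v z ∈ B := fun z hz => c.KB (c.mem z hz _ _ hs)
    refine ⟨?_, ?_⟩
    · exact der c.hU c.UK hφU c.hK H.op c.KB (fun z hz t ht => c.mem z hz _ _ (h3 t ht)) h1
        ((H.bd k).sm n) ht
    · set θ : ℝ := t * h n * v.im with hθ
      have hdet : 1 / 2 ≤ 1 + θ := c.det hs
      have hdet0 : 1 + θ ≠ 0 := by linarith
      have i1 : Integrable fun z => (φ z : ℂ) * (w 0 n z * w (k + 1) n (mv (t * h n) v z)) :=
        int_mul c.hU hφU (h1.mul (c.co hs ((H.bd (k + 1)).co n)))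
      have i2 : Integrable fun z => (φ z : ℂ) * (w 0 n z * w (k - 1) n (mv (t * h n) v z)) :=
        int_mul c.hU hφU (h1.mul (c.co hs ((H.bd (k - 1)).co n)))
      have i3 : Integrable fun z => (φ z : ℂ) * (w 0 n z * e n (mv (t * h n) v z)) :=
        int_mul c.hU hφU (h1.mul (c.co hs (he.co n)))
      have i4 : Integrable fun z => (φ z : ℂ) * (w 0 n z * e2 n (mv (t * h n) v z)) :=
        int_mul c.hU hφU (h1.mul (c.co hs (he2.co n)))
      set κ : ℝ := (1 + θ)⁻¹ with hκ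
      have e5 : P' n k t = (κ : ℂ) * (v / 2) * P (w (k + 1)) n t +
          (κ : ℂ) * (v / 2) * (h n : ℂ) * P e n t +
          (-((κ : ℂ) * ((starRingEnd ℂ) v / 2))) * P (w (k - 1)) n t +
          (κ : ℂ) * ((starRingEnd ℂ) v / 2) * (h n : ℂ) * P e2 n t := by
        simp only [hP', hP]
        have j1 : Integrable fun z =>
            (κ : ℂ) * (v / 2) * ((φ z : ℂ) * (w 0 n z * w (k + 1) n (mv (t * h n) v z))) +
            (κ : ℂ) * (v / 2) * (h n : ℂ) * ((φ z : ℂ) * (w 0 n z * e n (mv (t * h n) v z))) :=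
          (i1.const_mul _).add (i3.const_mul _)
        have j2 : Integrable fun z =>
            (κ : ℂ) * (v / 2) * ((φ z : ℂ) * (w 0 n z * w (k + 1) n (mv (t * h n) v z))) +
            (κ : ℂ) * (v / 2) * (h n : ℂ) * ((φ z : ℂ) * (w 0 n z * e n (mv (t * h n) v z))) +
            (-((κ : ℂ) * ((starRingEnd ℂ) v / 2))) *
              ((φ z : ℂ) * (w 0 n z * w (k - 1) n (mv (t * h n) v z))) :=
          j1.add (i2.const_mul _)
        rw [← integral_const_mul, ← integral_const_mul, ← integral_const_mul,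
          ← integral_const_mul, ← integral_add (i1.const_mul _) (i3.const_mul _),
          ← integral_add j1 (i2.const_mul _), ← integral_add j2 (i4.const_mul _)]
        refine integral_congr_ae (Eventually.of_forall fun z => ?_)
        simp only
        by_cases hz : z ∈ U
        · have hzB := hsB z hz
          rw [fd_mv (mv_im (t * h n) v z) hdet0, he' n _ hzB, he2' n _ hzB]
          ring
        · rw [Pool.Agent.Y265.RW.TF.zero hφU hz]; simp
      have k1 := g1 t ht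
      have k2 := g2 t ht
      have k3 := g3 t ht
      have k4 := g4 t ht
      set p1 := P (w (k + 1)) n t with hp1
      set p2 := P (w (k - 1)) n t with hp2
      set p3 := P e n t with hp3
      set p4 := P e2 n t with hp4
      have hκ1 : |κ| ≤ 2 := by
        rw [hκ, abs_of_nonneg (inv_nonneg.2 (by linarith)), inv_le_comm₀ (by linarith)
          (by norm_num)]
        linarith
      have hθ1 : |θ| ≤ h n * ‖v‖ := by
        rw [hθ, abs_mul, abs_mul, abs_of_nonneg ht.1, abs_of_pos (H.hpos n)]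
        calc t * h n * |v.im| ≤ 1 * h n * ‖v‖ :=
            mul_le_mul (mul_le_mul_of_nonneg_right ht.2 (H.hpos n).le)
              (Complex.abs_im_le_norm v) (abs_nonneg _) (by have := H.hpos n; positivity)
          _ = h n * ‖v‖ := by ring
      have hκ2 : |κ - 1| ≤ 2 * (h n * ‖v‖) := by
        have e6 : κ - 1 = -(κ * θ) := by
          rw [hκ]; field_simp; ring
        rw [e6, abs_neg, abs_mul]
        exact mul_le_mul hκ1 hθ1 (abs_nonneg _) (by norm_num)
      have e7 : P' n k t - (v / 2 * p1 + -((starRingEnd ℂ) v / 2) * p2) =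
          ((κ - 1 : ℝ) : ℂ) * (v / 2 * p1 - (starRingEnd ℂ) v / 2 * p2) +
          ((κ : ℝ) : ℂ) * (h n : ℂ) * (v / 2 * p3 + (starRingEnd ℂ) v / 2 * p4) := by
        rw [e5]
        push_cast
        ring
      have hv2 : ∀ x y : ℂ, ‖v / 2 * x - (starRingEnd ℂ) v / 2 * y‖ ≤
          ‖v‖ / 2 * (‖x‖ + ‖y‖) := by
        intro x y
        refine (norm_sub_le _ _).trans ?_
        rw [norm_mul, norm_mul, norm_div, norm_div, RCLike.norm_conj, Complex.norm_ofNat]
        linarith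
      have hv3 : ∀ x y : ℂ, ‖v / 2 * x + (starRingEnd ℂ) v / 2 * y‖ ≤
          ‖v‖ / 2 * (‖x‖ + ‖y‖) := by
        intro x y
        refine (norm_add_le _ _).trans ?_
        rw [norm_mul, norm_mul, norm_div, norm_div, RCLike.norm_conj, Complex.norm_ofNat]
        linarith
      have hhp := (H.hpos n).le
      have m2 : ‖((κ - 1 : ℝ) : ℂ) * (v / 2 * p1 - (starRingEnd ℂ) v / 2 * p2)‖ ≤
          (2 * (h n * ‖v‖)) * (‖v‖ / 2 * ((AG + 2 * M * A1) + (AG + 2 * M * A2))) := by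
        rw [norm_mul, Complex.norm_real, Real.norm_eq_abs]
        refine mul_le_mul hκ2 ((hv2 p1 p2).trans ?_) (norm_nonneg _) (by positivity)
        exact mul_le_mul_of_nonneg_left (by linarith) (by positivity)
      have m3 : ‖((κ : ℝ) : ℂ) * (h n : ℂ) * (v / 2 * p3 + (starRingEnd ℂ) v / 2 * p4)‖ ≤
          (2 * h n) * (‖v‖ / 2 * ((AG + 2 * M * C1) + (AG + 2 * M * C2))) := by
        rw [norm_mul, norm_mul, Complex.norm_real, Complex.norm_real, Real.norm_eq_abs,
          Real.norm_eq_abs, abs_of_pos (H.hpos n)]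
        refine mul_le_mul (mul_le_mul_of_nonneg_right hκ1 hhp) ((hv3 p3 p4).trans ?_)
          (norm_nonneg _) (by positivity)
        exact mul_le_mul_of_nonneg_left (by linarith) (by positivity)
      show ‖P' n k t - (v / 2 * p1 + -((starRingEnd ℂ) v / 2) * p2)‖ ≤ _
      rw [e7]
      refine (norm_add_le _ _).trans ?_
      have : (2 * ‖v‖ * (‖v‖ / 2 * ((AG + 2 * M * A1) + (AG + 2 * M * A2))) +
        2 * (‖v‖ / 2 * ((AG + 2 * M * C1) + (AG + 2 * M * C2)))) * h n =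
        (2 * (h n * ‖v‖)) * (‖v‖ / 2 * ((AG + 2 * M * A1) + (AG + 2 * M * A2))) +
        (2 * h n) * (‖v‖ / 2 * ((AG + 2 * M * C1) + (AG + 2 * M * C2))) := by ring
      rw [this]
      linarith

end Pool.Agent.N93.QB
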