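import Pool.Agent.N56.SZ_LOWQ
import Pool.Agent.N906.SS.Stm

/-!
# SS/LOWS: many semistable curves with prescribed `q` (helper93)
-/

set_option autoImplicit false

namespace Pool.Agent.N93.SS

open Finset Pool.Agent.N906.SZ Pool.Agent.N906.SS
open Pool.Agent.N56.SZ.LQ (Bx mem_Bx cnt_up cnt_lo tail fact_rd rd_pos one_sub_sum val_eq)

/-- the parametrisation of the cuspidal cubic modulo `M` -/
theorem par {M : ℕ} {a b : ℤ} (ha : IsCoprime a M) (hD : (M : ℤ) ∣ a ^ 3 - b ^ 2) :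
    ∃ t : (ZMod M)ˣ, (a : ZMod M) = (t : ZMod M) ^ 2 ∧ (b : ZMod M) = (t : ZMod M) ^ 3 := by
  have ha' : IsUnit (a : ZMod M) := by
    obtain ⟨u, v, huv⟩ := ha
    have h4 : ((u * a + v * M : ℤ) : ZMod M) = 1 := by rw [huv]; simp
    push_cast at h4
    rw [ZMod.natCast_self, mul_zero, add_zero] at h4
    exact IsUnit.of_mul_eq_one _ (by rw [mul_comm]; exact h4)
  have hD' : (a : ZMod M) ^ 3 = (b : ZMod M) ^ 2 := by
    have h4 : ((a ^ 3 - b ^ 2 : ℤ) : ZMod M) = 0 := (ZMod.intCast_zmod_eq_zero_iff_dvd _ _).2 hD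
    push_cast at h4
    exact sub_eq_zero.1 h4
  obtain ⟨A, hA⟩ := ha'
  set β : ZMod M := (b : ZMod M) with hβ
  set iA : ZMod M := ((A⁻¹ : (ZMod M)ˣ) : ZMod M) with hiA
  have eA : (a : ZMod M) * iA = 1 := by rw [← hA]; exact A.mul_inv
  set α : ZMod M := (a : ZMod M) with hα
  set t := β * iA with ht
  have h5 : t ^ 2 = α := by
    calc t ^ 2 = β ^ 2 * iA ^ 2 := by rw [ht]; ring
      _ = (α * iA) ^ 2 * α := by rw [← hD']; ring
      _ = α := by rw [eA]; ring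
  have h10 : t ^ 3 = β := by
    calc t ^ 3 = t * t ^ 2 := by ring
      _ = (α * iA) * β := by rw [h5, ht]; ring
      _ = β := by rw [eA]; ring
  have hu : IsUnit t := by
    have h11 : t * (t * iA) = 1 := by
      calc t * (t * iA) = t ^ 2 * iA := by ring
        _ = 1 := by rw [h5, eA]
    exact IsUnit.of_mul_eq_one _ h11
  obtain ⟨U, hU⟩ := hu
  exact ⟨U, by rw [hU, h5], by rw [hU, h10]⟩

/-- upper bound for the number of the pairs with parameters modulo `M` -/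
theorem up {M M1 M2 : ℕ} (hM0 : 1 ≤ M) (hM1 : 1 ≤ M1) (hM2 : 1 ≤ M2)
    {Y1 Y2 : ℝ} (hY1 : (M1 : ℝ) ≤ Y1) (hY2 : (M2 : ℝ) ≤ Y2) (S : Finset (ℤ × ℤ))
    (hS : ∀ x ∈ S, |(x.1 : ℝ)| ≤ Y1 ∧ |(x.2 : ℝ)| ≤ Y2 ∧ IsCoprime x.1 M ∧
      (M : ℤ) ∣ x.1 ^ 3 - x.2 ^ 2)
    (h1 : ∀ x ∈ S, ∀ y ∈ S, x.1 ≡ y.1 [ZMOD M] → x.1 ≡ y.1 [ZMOD M1])
    (h2 : ∀ x ∈ S, ∀ y ∈ S, x.2 ≡ y.2 [ZMOD M] → x.2 ≡ y.2 [ZMOD M2]) :
    (S.card : ℝ) ≤ M.totient * (16 * (Y1 * Y2) / (M1 * M2)) := by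
  classical
  have : NeZero M := ⟨by omega⟩
  have hM1' : (1 : ℝ) ≤ M1 := by exact_mod_cast hM1
  have hM2' : (1 : ℝ) ≤ M2 := by exact_mod_cast hM2
  let f : ℤ × ℤ → (ZMod M)ˣ := fun x => if h : ∃ t : (ZMod M)ˣ, (x.1 : ZMod M) = (t : ZMod M) ^ 2 ∧
    (x.2 : ZMod M) = (t : ZMod M) ^ 3 then h.choose else 1
  have hf : ∀ x ∈ S, (x.1 : ZMod M) = (f x : ZMod M) ^ 2 ∧
    (x.2 : ZMod M) = (f x : ZMod M) ^ 3 := by
    intro x hx
    have h := par (hS x hx).2.2.1 (hS x hx).2.2.2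
    simp only [f, dif_pos h]
    exact h.choose_spec
  have hfib : ∀ t : (ZMod M)ˣ, ((S.filter fun x => f x = t).card : ℝ) ≤ 16 * (Y1 * Y2) / (M1 * M2) := by
    intro t
    set St := S.filter fun x => f x = t with hSt
    rcases St.eq_empty_or_nonempty with h | ⟨x0, hx0⟩
    · rw [h]; simp only [Finset.card_empty, Nat.cast_zero]
      have : 0 ≤ Y1 := by linarith
      have : 0 ≤ Y2 := by linarith
      positivity
    obtain ⟨hx0S, hx0t⟩ := Finset.mem_filter.1 hx0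
    have hsub : St ⊆ ((Bx Y1).filter fun a => a ≡ x0.1 [ZMOD M1]) ×ˢ
        ((Bx Y2).filter fun a => a ≡ x0.2 [ZMOD M2]) := by
      intro x hx
      obtain ⟨hxS, hxt⟩ := Finset.mem_filter.1 hx
      have e1 : (x.1 : ZMod M) = (x0.1 : ZMod M) := by
        rw [(hf x hxS).1, (hf x0 hx0S).1, hxt, hx0t]
      have e2 : (x.2 : ZMod M) = (x0.2 : ZMod M) := by
        rw [(hf x hxS).2, (hf x0 hx0S).2, hxt, hx0t]
      rw [Finset.mem_product, Finset.mem_filter, Finset.mem_filter, mem_Bx, mem_Bx]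
      exact ⟨⟨(hS x hxS).1, h1 x hxS x0 hx0S ((ZMod.intCast_eq_intCast_iff _ _ _).1 e1)⟩,
        (hS x hxS).2.1, h2 x hxS x0 hx0S ((ZMod.intCast_eq_intCast_iff _ _ _).1 e2)⟩
    have hc := Finset.card_le_card hsub
    rw [Finset.card_product] at hc
    have hc' : (St.card : ℝ) ≤ (((Bx Y1).filter fun a => a ≡ x0.1 [ZMOD M1]).card : ℝ) *
        (((Bx Y2).filter fun a => a ≡ x0.2 [ZMOD M2]).card : ℝ) := by exact_mod_cast hc
    refine hc'.trans ?_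
    calc _ ≤ (4 * Y1 / M1) * (4 * Y2 / M2) := by
          apply mul_le_mul (cnt_up (by linarith) hM1 hY1 _) (cnt_up (by linarith) hM2 hY2 _)
            (Nat.cast_nonneg _)
          have : 0 ≤ Y1 := by linarith
          positivity
      _ = _ := by field_simp; ring
  have hsum : (S.card : ℝ) = ∑ t : (ZMod M)ˣ, ((S.filter fun x => f x = t).card : ℝ) := by
    exact_mod_cast Finset.card_eq_sum_card_fiberwise (f := f) (s := S) (t := Finset.univ)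
      (fun x _ => Finset.mem_coe.2 (Finset.mem_univ _))
  rw [hsum]
  calc _ ≤ ∑ t : (ZMod M)ˣ, 16 * (Y1 * Y2) / (M1 * M2) := Finset.sum_le_sum fun t _ => hfib t
    _ = _ := by rw [Finset.sum_const, Finset.card_univ, ZMod.card_units_eq_totient, nsmul_eq_mul]

/-- the Chinese remainder theorem -/
theorem crt {K m : ℕ} (h : K.Coprime m) (r c : ℤ) :
    ∃ a : ℤ, a ≡ r [ZMOD K] ∧ a ≡ c [ZMOD m] := by
  obtain ⟨u, v, huv⟩ := Nat.isCoprime_iff_coprime.2 h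
  refine ⟨v * m * r + u * K * c, Int.modEq_iff_dvd.2 ⟨u * r - u * c, ?_⟩,
    Int.modEq_iff_dvd.2 ⟨v * c - v * r, ?_⟩⟩
  · linear_combination (-r) * huv
  · linear_combination (-c) * huv

/-- lower bound for the number of the pairs -/
theorem lo {m K1 K2 : ℕ} (hk1 : K1.Coprime m) (hk2 : K2.Coprime m) (hK1 : 1 ≤ K1) (hK2 : 1 ≤ K2)
    (hm0 : 1 ≤ m) (r1 r2 : ℤ) {Y1 Y2 : ℝ} (S : Finset (ℤ × ℤ))
    (hS : ∀ a b : ℤ, |(a : ℝ)| ≤ Y1 → |(b : ℝ)| ≤ Y2 → a ≡ r1 [ZMOD K1] → b ≡ r2 [ZMOD K2] →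
      IsCoprime a m → (m : ℤ) ∣ a ^ 3 - b ^ 2 → (a, b) ∈ S)
    (h2 : 0 ≤ (2 * Y2 - 1) / (K2 * m) - 1) :
    m.totient * (((2 * Y1 - 1) / (K1 * m) - 1) * ((2 * Y2 - 1) / (K2 * m) - 1)) ≤ S.card := by
  classical
  have : NeZero m := ⟨by omega⟩
  let c : (ZMod m)ˣ → ℤ := fun t => ((t : ZMod m).val : ℤ)
  have hc : ∀ t, ((c t : ℤ) : ZMod m) = t := by
    intro t
    simp only [c, Int.cast_natCast, ZMod.natCast_zmod_val]
  have hal0 : ∀ t : (ZMod m)ˣ, ∃ a : ℤ, a ≡ r1 [ZMOD K1] ∧ a ≡ c t ^ 2 [ZMOD m] := fun t =>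
    crt hk1 r1 (c t ^ 2)
  have hbe0 : ∀ t : (ZMod m)ˣ, ∃ a : ℤ, a ≡ r2 [ZMOD K2] ∧ a ≡ c t ^ 3 [ZMOD m] := fun t =>
    crt hk2 r2 (c t ^ 3)
  choose al hal1 hal2 using hal0
  choose be hbe1 hbe2 using hbe0
  have halm : ∀ t, ((al t : ℤ) : ZMod m) = (t : ZMod m) ^ 2 := by
    intro t
    rw [(ZMod.intCast_eq_intCast_iff _ _ _).2 (hal2 t)]
    push_cast
    rw [hc]
  have hbe : ∀ t, ((be t : ℤ) : ZMod m) = (t : ZMod m) ^ 3 := by
    intro t
    rw [(ZMod.intCast_eq_intCast_iff _ _ _).2 (hbe2 t)]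
    push_cast
    rw [hc]
  let Pt : (ZMod m)ˣ → Finset (ℤ × ℤ) := fun t =>
    ((Bx Y1).filter fun a => a ≡ al t [ZMOD ((K1 * m : ℕ) : ℤ)]) ×ˢ
      ((Bx Y2).filter fun a => a ≡ be t [ZMOD ((K2 * m : ℕ) : ℤ)])
  have hPm : ∀ t, ∀ x ∈ Pt t, ((x.1 : ℤ) : ZMod m) = (t : ZMod m) ^ 2 ∧
      ((x.2 : ℤ) : ZMod m) = (t : ZMod m) ^ 3 ∧ x.1 ≡ r1 [ZMOD K1] ∧ x.2 ≡ r2 [ZMOD K2] ∧
      |(x.1 : ℝ)| ≤ Y1 ∧ |(x.2 : ℝ)| ≤ Y2 := by
    intro t x hx
    simp only [Pt, Finset.mem_product, Finset.mem_filter, mem_Bx] at hx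
    obtain ⟨⟨g1, g2⟩, g3, g4⟩ := hx
    refine ⟨?_, ?_, ?_, ?_, g1, g3⟩
    · rw [← halm t, ZMod.intCast_eq_intCast_iff]
      exact g2.of_dvd (by push_cast; exact dvd_mul_left _ _)
    · rw [← hbe t, ZMod.intCast_eq_intCast_iff]
      exact g4.of_dvd (by push_cast; exact dvd_mul_left _ _)
    · exact (g2.of_dvd (by push_cast; exact dvd_mul_right _ _)).trans (hal1 t)
    · exact (g4.of_dvd (by push_cast; exact dvd_mul_right _ _)).trans (hbe1 t)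
  have hdisj : Set.PairwiseDisjoint (↑(Finset.univ : Finset (ZMod m)ˣ)) Pt := by
    intro t _ s _ hts
    rw [Function.onFun, Finset.disjoint_left]
    intro x hx hy
    apply hts
    obtain ⟨g1, g2, -⟩ := hPm t x hx
    obtain ⟨g3, g4, -⟩ := hPm s x hy
    have e1 : (t : ZMod m) ^ 2 = (s : ZMod m) ^ 2 := g1.symm.trans g3
    have e2 : (t : ZMod m) ^ 3 = (s : ZMod m) ^ 3 := g2.symm.trans g4
    have e3 : IsUnit ((s : ZMod m) ^ 2) := (Units.isUnit s).pow 2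
    apply Units.ext
    apply e3.mul_left_cancel
    calc (s : ZMod m) ^ 2 * t = (t : ZMod m) ^ 3 := by rw [← e1]; ring
      _ = (s : ZMod m) ^ 2 * s := by rw [e2]; ring
  have hsub : (Finset.univ : Finset (ZMod m)ˣ).biUnion Pt ⊆ S := by
    intro x hx
    rw [Finset.mem_biUnion] at hx
    obtain ⟨t, -, hx⟩ := hx
    obtain ⟨g1, g2, g3, g3', g4, g5⟩ := hPm t x hx
    have := hS x.1 x.2 g4 g5 g3 g3' ?_ ?_
    · simpa using this
    · have hu : IsUnit ((x.1 : ℤ) : ZMod m) := by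
        rw [g1]; exact (Units.isUnit t).pow 2
      obtain ⟨y, hy⟩ := hu.exists_right_inv
      have hy' : ((x.1 * (y.val : ℤ) : ℤ) : ZMod m) = ((1 : ℤ) : ZMod m) := by
        push_cast
        rw [ZMod.natCast_zmod_val, hy]
      rw [ZMod.intCast_eq_intCast_iff, Int.modEq_iff_dvd] at hy'
      obtain ⟨k, hk⟩ := hy'
      exact ⟨y.val, k, by linarith⟩
    · rw [← ZMod.intCast_zmod_eq_zero_iff_dvd]
      push_cast
      rw [g1, g2]
      ring
  have hcard := Finset.card_le_card hsub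
  rw [Finset.card_biUnion (fun t ht s hs hts => hdisj ht hs hts)] at hcard
  have hm1 : 1 ≤ K1 * m := Nat.mul_pos hK1 hm0
  have hm2 : 1 ≤ K2 * m := Nat.mul_pos hK2 hm0
  calc m.totient * (((2 * Y1 - 1) / (K1 * m) - 1) * ((2 * Y2 - 1) / (K2 * m) - 1))
      = ∑ t : (ZMod m)ˣ, (((2 * Y1 - 1) / (K1 * m) - 1) * ((2 * Y2 - 1) / (K2 * m) - 1)) := by
        rw [Finset.sum_const, Finset.card_univ, ZMod.card_units_eq_totient, nsmul_eq_mul]
    _ ≤ ∑ t : (ZMod m)ˣ, ((Pt t).card : ℝ) := by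
        apply Finset.sum_le_sum
        intro t _
        simp only [Pt, Finset.card_product, Nat.cast_mul]
        have g1 := cnt_lo (Y := Y1) hm1 (al t)
        have g2 := cnt_lo (Y := Y2) hm2 (be t)
        push_cast at g1 g2 ⊢
        exact mul_le_mul g1 g2 h2 (Nat.cast_nonneg _)
    _ ≤ S.card := by exact_mod_cast hcard

theorem modEq_mul' {m k : ℕ} (hc : m.Coprime k) {a b : ℤ} (h : a ≡ b [ZMOD m])
    (h' : a ≡ b [ZMOD k]) : a ≡ b [ZMOD ((m * k : ℕ) : ℤ)] := by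
  rw [Int.modEq_iff_dvd] at h h' ⊢
  push_cast
  exact (Nat.isCoprime_iff_coprime.2 hc).mul_dvd h h'

/-- the sieve -/
theorem sieveS {X z P : ℝ} {m K1 K2 : ℕ} {T : Finset ℕ} (r2 : ℤ) (hk1 : K1.Coprime m)
    (hk2 : K2.Coprime m) (hK1 : 2 ≤ K1) (hK2 : 1 ≤ K2) (hK : K2 ≤ K1)
    (hkp : ∀ p : ℕ, p.Prime → 100 ≤ p → K1.Coprime p ∧ K2.Coprime p) (hm0 : 1 ≤ m)
    (hz : 6400 ≤ z) (hzP : z ≤ P) (hP : 1000 * (K1 : ℝ) * K2 * m * P ^ 2 ≤ X)
    (hT : ∀ p ∈ T, p.Prime ∧ p ∣ m ∧ (p : ℝ) ≤ P ∧ 100 ≤ p)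
    (hTs : ∑ p ∈ T, (1 : ℝ) / p ≤ 1 / 1000)
    (hphi : (m : ℝ) ≤ 2 * m.totient) :
    ∃ F : Finset (ℤ × ℤ), (∀ x ∈ F, |(x.1 : ℝ)| ≤ X ^ 2 ∧ |(x.2 : ℝ)| ≤ X ^ 3 ∧
      x.1 ≡ 1 [ZMOD K1] ∧ x.2 ≡ r2 [ZMOD K2] ∧ IsCoprime x.1 m ∧ (m : ℤ) ∣ x.1 ^ 3 - x.2 ^ 2 ∧
      (∀ p ∈ T, ¬ ((m * p : ℕ) : ℤ) ∣ x.1 ^ 3 - x.2 ^ 2) ∧
      (∀ p : ℕ, p.Prime → z < (p : ℝ) → (p : ℝ) ≤ P → ¬ p ∣ m →
        ¬ (p : ℤ) ∣ x.1 → ¬ (p : ℤ) ^ 2 ∣ x.1 ^ 3 - x.2 ^ 2) ∧
      (∀ p : ℕ, p.Prime → 100 ≤ p → ¬ p ∣ m → ¬ ((p : ℤ) ∣ x.1 ∧ (p : ℤ) ∣ x.2))) ∧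
    X ^ 5 / (4 * K1 * K2 * m) ≤ F.card := by
  classical
  have hmr : (1 : ℝ) ≤ m := by exact_mod_cast hm0
  have hm0r : (0 : ℝ) < m := by linarith
  have hK1r : (2 : ℝ) ≤ K1 := by exact_mod_cast hK1
  have hK2r : (1 : ℝ) ≤ K2 := by exact_mod_cast hK2
  have hKr : (K2 : ℝ) ≤ K1 := by exact_mod_cast hK
  have hK1p : (0 : ℝ) < K1 := by linarith
  have hK2p : (0 : ℝ) < K2 := by linarith
  have hP1 : (6400 : ℝ) ≤ P := hz.trans hzP
  have hP2 : (6400 : ℝ) ^ 2 ≤ P ^ 2 := by gcongr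
  have hP21 : (1 : ℝ) ≤ P ^ 2 := by linarith [show (1 : ℝ) ≤ 6400 ^ 2 by norm_num]
  -- size of `X`
  have hX1 : (1 : ℝ) ≤ X := by
    refine le_trans ?_ hP
    have h1 : (1 : ℝ) ≤ (K1 : ℝ) * K2 * m * P ^ 2 := by
      have : (1 : ℝ) ≤ (K1 : ℝ) := by linarith
      calc (1 : ℝ) = 1 * 1 * 1 * 1 := by ring
        _ ≤ (K1 : ℝ) * K2 * m * P ^ 2 := by gcongr
    linarith
  have hX0 : (0 : ℝ) < X := by linarith
  have hXX2 : X ≤ X ^ 2 := by nlinarith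
  have hX23 : X ^ 2 ≤ X ^ 3 := pow_le_pow_right₀ hX1 (by norm_num)
  have hKKm : 1000 * ((K1 : ℝ) * K2 * m) ≤ X := by
    refine le_trans ?_ hP
    calc 1000 * ((K1 : ℝ) * K2 * m) = 1000 * (K1 : ℝ) * K2 * m * 1 := by ring
      _ ≤ 1000 * (K1 : ℝ) * K2 * m * P ^ 2 := by gcongr
  have hK1m : (K1 : ℝ) * m * P ^ 2 ≤ X ^ 2 := by
    refine le_trans ?_ (hP.trans hXX2)
    calc (K1 : ℝ) * m * P ^ 2 = 1 * (K1 : ℝ) * 1 * m * P ^ 2 := by ring
      _ ≤ 1000 * (K1 : ℝ) * K2 * m * P ^ 2 := by gcongr; norm_num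
  have hk1m1 : (1 : ℝ) ≤ (K1 : ℝ) * m := by nlinarith
  have hk2m1 : (1 : ℝ) ≤ (K2 : ℝ) * m := by nlinarith
  have hK2m : (K2 : ℝ) * m * P ^ 2 ≤ X ^ 3 := by
    refine le_trans ?_ (hK1m.trans hX23)
    gcongr
  set A : Finset (ℤ × ℤ) := (Bx (X ^ 2) ×ˢ Bx (X ^ 3)).filter fun x =>
    x.1 ≡ 1 [ZMOD K1] ∧ x.2 ≡ r2 [ZMOD K2] ∧ IsCoprime x.1 m ∧ (m : ℤ) ∣ x.1 ^ 3 - x.2 ^ 2 with hA
  have memA : ∀ x, x ∈ A ↔ (|(x.1 : ℝ)| ≤ X ^ 2 ∧ |(x.2 : ℝ)| ≤ X ^ 3) ∧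
      x.1 ≡ 1 [ZMOD K1] ∧ x.2 ≡ r2 [ZMOD K2] ∧ IsCoprime x.1 m ∧ (m : ℤ) ∣ x.1 ^ 3 - x.2 ^ 2 := by
    intro x
    rw [hA, Finset.mem_filter, Finset.mem_product, mem_Bx, mem_Bx]
  set Q : ℝ := m.totient * X ^ 5 / (K1 * K2 * m ^ 2) with hQ
  have hQ0 : 0 ≤ Q := by positivity
  have hQ1 : X ^ 5 / (2 * K1 * K2 * m) ≤ Q := by
    rw [hQ, div_le_div_iff₀ (by positivity) (by positivity)]
    have h1 : (m : ℝ) * (X ^ 5 * (K1 * K2 * m)) ≤ (2 * m.totient) * (X ^ 5 * (K1 * K2 * m)) := by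
      gcongr
    calc X ^ 5 * ((K1 : ℝ) * K2 * m ^ 2) = (m : ℝ) * (X ^ 5 * (K1 * K2 * m)) := by ring
      _ ≤ (2 * m.totient) * (X ^ 5 * (K1 * K2 * m)) := h1
      _ = _ := by ring
  -- lower bound
  have hP22 : (2 : ℝ) ≤ P ^ 2 := by linarith [show (2 : ℝ) ≤ 6400 ^ 2 by norm_num]
  have hw12 : (K1 : ℝ) * m + 1 ≤ X ^ 2 := by nlinarith
  have hw18 : (K2 : ℝ) * m + 1 ≤ X ^ 3 := by nlinarith
  have hlo : Q ≤ A.card := by
    have e1 : X ^ 2 / (K1 * m) ≤ (2 * X ^ 2 - 1) / (K1 * m) - 1 := by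
      rw [div_sub_one (by positivity)]
      gcongr
      linarith
    have e2 : X ^ 3 / (K2 * m) ≤ (2 * X ^ 3 - 1) / (K2 * m) - 1 := by
      rw [div_sub_one (by positivity)]
      gcongr
      linarith
    have h1 := lo (Y1 := X ^ 2) (Y2 := X ^ 3) hk1 hk2 (by omega) hK2 hm0 1 r2 A (by
      intro a b h1 h2 h3 h4 h5 h6
      rw [memA]
      exact ⟨⟨h1, h2⟩, h3, h4, h5, h6⟩) (le_trans (by positivity) e2)
    refine le_trans ?_ h1
    calc Q = m.totient * ((X ^ 2 / (K1 * m)) * (X ^ 3 / (K2 * m))) := by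
          rw [hQ]; field_simp
      _ ≤ _ := by
        apply mul_le_mul_of_nonneg_left _ (Nat.cast_nonneg _)
        exact mul_le_mul e1 e2 (by positivity) (le_trans (by positivity) e1)
  -- the bad sets
  let B1 : ℕ → Finset (ℤ × ℤ) := fun p => A.filter fun x => ((m * p : ℕ) : ℤ) ∣ x.1 ^ 3 - x.2 ^ 2
  let B2 : ℕ → Finset (ℤ × ℤ) := fun p => A.filter fun x => ¬ (p : ℤ) ∣ x.1 ∧
    (p : ℤ) ^ 2 ∣ x.1 ^ 3 - x.2 ^ 2
  let B3 : ℕ → Finset (ℤ × ℤ) := fun p => A.filter fun x => (p : ℤ) ∣ x.1 ∧ (p : ℤ) ∣ x.2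
  let P2 : Finset ℕ := (Finset.range (⌊P⌋₊ + 1)).filter fun p => p.Prime ∧ z < (p : ℝ) ∧
    (p : ℝ) ≤ P ∧ ¬ p ∣ m
  let P3 : Finset ℕ := (Finset.range (⌊X ^ 2⌋₊ + 1)).filter fun p => p.Prime ∧ 100 ≤ p ∧ ¬ p ∣ m ∧
    (p : ℝ) ≤ X ^ 2
  let P3a : Finset ℕ := P3.filter fun p => (K1 : ℝ) * m * p ≤ X ^ 2
  let P3b : Finset ℕ := P3.filter fun p => ¬ (K1 : ℝ) * m * p ≤ X ^ 2
  -- the bounds
  have hb1 : ∀ p ∈ T, ((B1 p).card : ℝ) ≤ 16 * Q * (1 / p) := by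
    intro p hp
    obtain ⟨hpp, hpm, hpP, hp100⟩ := hT p hp
    have hp1 : (1 : ℝ) ≤ p := by exact_mod_cast hpp.one_le
    have hpP2 : (p : ℝ) ≤ P ^ 2 := by nlinarith
    have hmp : ((K1 * (m * p) : ℕ) : ℝ) ≤ X ^ 2 := by
      push_cast
      calc (K1 : ℝ) * (m * p) = K1 * m * p := by ring
        _ ≤ K1 * m * P ^ 2 := by gcongr
        _ ≤ X ^ 2 := hK1m
    have hmp' : ((K2 * (m * p) : ℕ) : ℝ) ≤ X ^ 3 := by
      push_cast
      calc (K2 : ℝ) * (m * p) = K2 * m * p := by ring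
        _ ≤ K2 * m * P ^ 2 := by gcongr
        _ ≤ X ^ 3 := hK2m
    have c1 : K1.Coprime (m * p) := hk1.mul_right (hkp p hpp hp100).1
    have c2 : K2.Coprime (m * p) := hk2.mul_right (hkp p hpp hp100).2
    have h := up (M := m * p) (M1 := K1 * (m * p)) (M2 := K2 * (m * p))
      (Nat.mul_pos hm0 hpp.pos) (Nat.mul_pos (by omega) (Nat.mul_pos hm0 hpp.pos))
      (Nat.mul_pos (by omega) (Nat.mul_pos hm0 hpp.pos))
      (Y1 := X ^ 2) (Y2 := X ^ 3) hmp hmp' (B1 p) (by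
        intro x hx
        simp only [B1, Finset.mem_filter, memA] at hx
        refine ⟨hx.1.1.1, hx.1.1.2, ?_, hx.2⟩
        push_cast
        have h5 : IsCoprime x.1 (p : ℤ) :=
          IsCoprime.of_isCoprime_of_dvd_right hx.1.2.2.2.1 (by exact_mod_cast hpm)
        exact hx.1.2.2.2.1.mul_right h5)
      (by
        intro x hx y hy h
        simp only [B1, Finset.mem_filter, memA] at hx hy
        exact modEq_mul' c1 (hx.1.2.1.trans hy.1.2.1.symm) h)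
      (by
        intro x hx y hy h
        simp only [B1, Finset.mem_filter, memA] at hx hy
        exact modEq_mul' c2 (hx.1.2.2.1.trans hy.1.2.2.1.symm) h)
    refine h.trans (le_of_eq ?_)
    rw [mul_comm m p, Nat.totient_mul_of_prime_of_dvd hpp hpm, hQ]
    push_cast
    have : (p : ℝ) ≠ 0 := by positivity
    field_simp
  have hb2 : ∀ p ∈ P2, ((B2 p).card : ℝ) ≤ 16 * Q * (1 / (p : ℝ) ^ 2) := by
    intro p hp
    simp only [P2, Finset.mem_filter] at hp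
    obtain ⟨-, hpp, hzp, hpP, hpm⟩ := hp
    have hp1 : (1 : ℝ) ≤ p := by exact_mod_cast hpp.one_le
    have hp100 : 100 ≤ p := by
      have : (100 : ℝ) ≤ p := by linarith
      exact_mod_cast this
    have hpc : m.Coprime p := ((Nat.Prime.coprime_iff_not_dvd hpp).2 hpm).symm
    have hmp : ((K1 * (m * p ^ 2) : ℕ) : ℝ) ≤ X ^ 2 := by
      push_cast
      calc (K1 : ℝ) * (m * p ^ 2) = K1 * m * p ^ 2 := by ring
        _ ≤ K1 * m * P ^ 2 := by gcongr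
        _ ≤ X ^ 2 := hK1m
    have hmp' : ((K2 * (m * p ^ 2) : ℕ) : ℝ) ≤ X ^ 3 := by
      push_cast
      calc (K2 : ℝ) * (m * p ^ 2) = K2 * m * p ^ 2 := by ring
        _ ≤ K2 * m * P ^ 2 := by gcongr
        _ ≤ X ^ 3 := hK2m
    have c1 : K1.Coprime (m * p ^ 2) := hk1.mul_right ((hkp p hpp hp100).1.pow_right 2)
    have c2 : K2.Coprime (m * p ^ 2) := hk2.mul_right ((hkp p hpp hp100).2.pow_right 2)
    have hmp0 : 1 ≤ m * p ^ 2 := Nat.mul_pos hm0 (pow_pos hpp.pos 2)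
    have h := up (M := m * p ^ 2) (M1 := K1 * (m * p ^ 2)) (M2 := K2 * (m * p ^ 2))
      hmp0 (Nat.mul_pos (by omega) hmp0) (Nat.mul_pos (by omega) hmp0)
      (Y1 := X ^ 2) (Y2 := X ^ 3) hmp hmp' (B2 p) (by
        intro x hx
        simp only [B2, Finset.mem_filter, memA] at hx
        refine ⟨hx.1.1.1, hx.1.1.2, ?_, ?_⟩
        · push_cast
          have h5 : IsCoprime x.1 ((p : ℤ) ^ 2) :=
            ((Prime.coprime_iff_not_dvd (Nat.prime_iff_prime_int.1 hpp)).2 hx.2.1).symm.pow_right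
          exact hx.1.2.2.2.1.mul_right h5
        · push_cast
          have h5 : IsCoprime (m : ℤ) ((p : ℤ) ^ 2) := (Nat.isCoprime_iff_coprime.2 hpc).pow_right
          exact h5.mul_dvd hx.1.2.2.2.2 hx.2.2)
      (by
        intro x hx y hy h
        simp only [B2, Finset.mem_filter, memA] at hx hy
        exact modEq_mul' c1 (hx.1.2.1.trans hy.1.2.1.symm) h)
      (by
        intro x hx y hy h
        simp only [B2, Finset.mem_filter, memA] at hx hy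
        exact modEq_mul' c2 (hx.1.2.2.1.trans hy.1.2.2.1.symm) h)
    have hphi2 : (((m * p ^ 2).totient : ℕ) : ℝ) ≤ m.totient * (p : ℝ) ^ 2 := by
      rw [Nat.totient_mul (hpc.pow_right 2)]
      have : (p ^ 2).totient ≤ p ^ 2 := Nat.totient_le _
      have h7 : (((p ^ 2).totient : ℕ) : ℝ) ≤ (p : ℝ) ^ 2 := by exact_mod_cast this
      push_cast
      gcongr
    calc ((B2 p).card : ℝ) ≤ _ := h
      _ ≤ (m.totient * (p : ℝ) ^ 2) * (16 * (X ^ 2 * X ^ 3) /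
          (((K1 * (m * p ^ 2) : ℕ) : ℝ) * ((K2 * (m * p ^ 2) : ℕ) : ℝ))) := by gcongr
      _ = 16 * Q * (1 / (p : ℝ) ^ 2) := by
        rw [hQ]
        push_cast
        have : (p : ℝ) ≠ 0 := by positivity
        field_simp
  have hb3a : ∀ p ∈ P3a, ((B3 p).card : ℝ) ≤ 16 * Q * (1 / (p : ℝ) ^ 2) := by
    intro p hp
    simp only [P3a, P3, Finset.mem_filter] at hp
    obtain ⟨⟨-, hpp, hp5, hpm, hpX⟩, hmp⟩ := hp
    have hpc : m.Coprime p := ((Nat.Prime.coprime_iff_not_dvd hpp).2 hpm).symm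
    have hp1 : (1 : ℝ) ≤ p := by exact_mod_cast hpp.one_le
    have c1 : K1.Coprime (m * p) := hk1.mul_right (hkp p hpp hp5).1
    have c2 : K2.Coprime (m * p) := hk2.mul_right (hkp p hpp hp5).2
    have hmp0 : 1 ≤ m * p := Nat.mul_pos hm0 hpp.pos
    have hmp1 : ((K1 * (m * p) : ℕ) : ℝ) ≤ X ^ 2 := by
      push_cast
      calc (K1 : ℝ) * (m * p) = K1 * m * p := by ring
        _ ≤ X ^ 2 := hmp
    have hmp' : ((K2 * (m * p) : ℕ) : ℝ) ≤ X ^ 3 := by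
      push_cast
      calc (K2 : ℝ) * (m * p) = K2 * m * p := by ring
        _ ≤ K1 * m * p := by gcongr
        _ ≤ X ^ 3 := hmp.trans hX23
    have h := up (M := m) (M1 := K1 * (m * p)) (M2 := K2 * (m * p)) hm0
      (Nat.mul_pos (by omega) hmp0) (Nat.mul_pos (by omega) hmp0)
      (Y1 := X ^ 2) (Y2 := X ^ 3) hmp1 hmp' (B3 p) (by
        intro x hx
        simp only [B3, Finset.mem_filter, memA] at hx
        exact ⟨hx.1.1.1, hx.1.1.2, hx.1.2.2.2.1, hx.1.2.2.2.2⟩)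
        (by
          intro x hx y hy h
          simp only [B3, Finset.mem_filter, memA] at hx hy
          exact modEq_mul' c1 (hx.1.2.1.trans hy.1.2.1.symm) (modEq_mul' hpc h
            (Int.modEq_iff_dvd.2 (dvd_sub hy.2.1 hx.2.1))))
        (by
          intro x hx y hy h
          simp only [B3, Finset.mem_filter, memA] at hx hy
          exact modEq_mul' c2 (hx.1.2.2.1.trans hy.1.2.2.1.symm) (modEq_mul' hpc h
            (Int.modEq_iff_dvd.2 (dvd_sub hy.2.2 hx.2.2))))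
    calc ((B3 p).card : ℝ) ≤ _ := h
      _ = 16 * Q * (1 / (p : ℝ) ^ 2) := by
        rw [hQ]
        push_cast
        have : (p : ℝ) ≠ 0 := by positivity
        field_simp
  have hb3b : ∀ p ∈ P3b, ((B3 p).card : ℝ) ≤ 16 * X ^ 5 * (1 / (p : ℝ) ^ 2) := by
    intro p hp
    simp only [P3b, P3, Finset.mem_filter, not_le] at hp
    obtain ⟨⟨-, hpp, hp5, hpm, hpX⟩, hmp⟩ := hp
    have hp1 : (1 : ℝ) ≤ p := by exact_mod_cast hpp.one_le
    have h := up (M := 1) (M1 := p) (M2 := p) le_rfl hpp.pos hpp.pos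
      (Y1 := X ^ 2) (Y2 := X ^ 3) hpX (hpX.trans hX23) (B3 p) (by
        intro x hx
        simp only [B3, Finset.mem_filter, memA] at hx
        exact ⟨hx.1.1.1, hx.1.1.2, by push_cast; exact isCoprime_one_right, by simp⟩)
        (by
          intro x hx y hy h
          simp only [B3, Finset.mem_filter] at hx hy
          exact Int.modEq_iff_dvd.2 (dvd_sub hy.2.1 hx.2.1))
        (by
          intro x hx y hy h
          simp only [B3, Finset.mem_filter] at hx hy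
          exact Int.modEq_iff_dvd.2 (dvd_sub hy.2.2 hx.2.2))
    calc ((B3 p).card : ℝ) ≤ _ := h
      _ = 16 * X ^ 5 * (1 / (p : ℝ) ^ 2) := by
        have : (p : ℝ) ≠ 0 := by positivity
        simp only [Nat.totient_one, Nat.cast_one]
        field_simp
  -- the sums
  have hs1 : ∑ p ∈ T, ((B1 p).card : ℝ) ≤ 16 / 1000 * Q := by
    calc _ ≤ ∑ p ∈ T, 16 * Q * (1 / (p : ℝ)) := Finset.sum_le_sum hb1
      _ = 16 * Q * ∑ p ∈ T, 1 / (p : ℝ) := by rw [Finset.mul_sum]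
      _ ≤ 16 * Q * (1 / 1000) := by gcongr
      _ = _ := by ring
  have ht2 : ∑ p ∈ P2, 1 / (p : ℝ) ^ 2 ≤ 2 / z :=
    tail P2 (by linarith) (fun n hn => (Finset.mem_filter.1 hn).2.2.1)
  have hz2 : 2 / z ≤ 2 / 6400 := by gcongr
  have hs2 : ∑ p ∈ P2, ((B2 p).card : ℝ) ≤ 32 / 6400 * Q := by
    calc _ ≤ ∑ p ∈ P2, 16 * Q * (1 / (p : ℝ) ^ 2) := Finset.sum_le_sum hb2
      _ = 16 * Q * ∑ p ∈ P2, 1 / (p : ℝ) ^ 2 := by rw [Finset.mul_sum]
      _ ≤ 16 * Q * (2 / 6400) := by gcongr; exact ht2.trans hz2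
      _ = _ := by ring
  have hs3a : ∑ p ∈ P3a, ((B3 p).card : ℝ) ≤ 32 / 99 * Q := by
    have ht : ∑ p ∈ P3a, 1 / (p : ℝ) ^ 2 ≤ 2 / 99 :=
      tail P3a (by norm_num) (fun n hn => by
        have h5 : 100 ≤ n := (Finset.mem_filter.1 (Finset.mem_filter.1 hn).1).2.2.1
        have : (100 : ℝ) ≤ n := by exact_mod_cast h5
        linarith)
    calc _ ≤ ∑ p ∈ P3a, 16 * Q * (1 / (p : ℝ) ^ 2) := Finset.sum_le_sum hb3a
      _ = 16 * Q * ∑ p ∈ P3a, 1 / (p : ℝ) ^ 2 := by rw [Finset.mul_sum]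
      _ ≤ 16 * Q * (2 / 99) := by gcongr
      _ = _ := by ring
  have hs3b : ∑ p ∈ P3b, ((B3 p).card : ℝ) ≤ 64 / 1000000 * Q := by
    have hw1 : 1 ≤ X ^ 2 / (K1 * m) := by
      rw [le_div_iff₀ (by positivity)]
      linarith
    have ht : ∑ p ∈ P3b, 1 / (p : ℝ) ^ 2 ≤ 2 / (X ^ 2 / (K1 * m)) :=
      tail P3b hw1 (fun n hn => by
        have h5 : X ^ 2 < K1 * m * (n : ℝ) := not_le.1 (Finset.mem_filter.1 hn).2
        rw [div_lt_iff₀ (by positivity)]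
        linarith)
    have hKm0 : 0 ≤ (K1 : ℝ) * K2 * m := by positivity
    calc _ ≤ ∑ p ∈ P3b, 16 * X ^ 5 * (1 / (p : ℝ) ^ 2) := Finset.sum_le_sum hb3b
      _ = 16 * X ^ 5 * ∑ p ∈ P3b, 1 / (p : ℝ) ^ 2 := by rw [Finset.mul_sum]
      _ ≤ 16 * X ^ 5 * (2 / (X ^ 2 / (K1 * m))) := by gcongr
      _ = 64 * (X ^ 5 / (2 * K1 * K2 * m)) * ((K1 * m) * (K1 * K2 * m) / X ^ 2) := by
        field_simp; ring
      _ ≤ 64 * Q * ((K1 * K2 * m) * (K1 * K2 * m) / X ^ 2) := by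
        gcongr
        calc (K1 : ℝ) = K1 * 1 := by ring
          _ ≤ K1 * K2 := by gcongr
      _ ≤ 64 * Q * (1 / 1000000) := by
        refine mul_le_mul_of_nonneg_left ?_ (by positivity)
        rw [div_le_div_iff₀ (by positivity) (by norm_num)]
        nlinarith
      _ = _ := by ring
  set F : Finset (ℤ × ℤ) := A \ (T.biUnion B1 ∪ P2.biUnion B2 ∪ P3a.biUnion B3 ∪
    P3b.biUnion B3) with hF
  refine ⟨F, ?_, ?_⟩
  · intro x hx
    rw [hF, Finset.mem_sdiff, memA] at hx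
    simp only [Finset.mem_union, Finset.mem_biUnion, not_or] at hx
    obtain ⟨⟨⟨g1, g2⟩, g3, g3', g4, g5⟩, ⟨⟨n1, n2⟩, n3a⟩, n3b⟩ := hx
    have hxA : x ∈ A := (memA x).2 ⟨⟨g1, g2⟩, g3, g3', g4, g5⟩
    have hin2 : ∀ p : ℕ, p.Prime → z < (p : ℝ) → (p : ℝ) ≤ P → ¬ p ∣ m → p ∈ P2 := by
      intro p hpp h1 h2 h3
      simp only [P2, Finset.mem_filter, Finset.mem_range]
      refine ⟨?_, hpp, h1, h2, h3⟩
      have := Nat.le_floor h2
      omega
    refine ⟨g1, g2, g3, g3', g4, g5, ?_, ?_, ?_⟩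
    · intro p hp hd
      exact n1 ⟨p, hp, Finset.mem_filter.2 ⟨hxA, hd⟩⟩
    · intro p hpp h1 h2 h3 h4 h5
      exact n2 ⟨p, hin2 p hpp h1 h2 h3, Finset.mem_filter.2 ⟨hxA, h4, h5⟩⟩
    · intro p hpp hp64 hpm ⟨h4, h5⟩
      have hx0 : x.1 ≠ 0 := by
        intro h0
        rw [h0] at g3
        have h6 := g3.dvd
        rw [sub_zero] at h6
        have h7 := Int.le_of_dvd one_pos h6
        have h8 : (2 : ℤ) ≤ K1 := by exact_mod_cast hK1
        omega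
      have hpX : (p : ℝ) ≤ X ^ 2 := by
        refine le_trans ?_ g1
        have h6 : (p : ℤ) ≤ |x.1| := Int.le_of_dvd (abs_pos.2 hx0) ((dvd_abs _ _).2 h4)
        exact_mod_cast h6
      have hp3 : p ∈ P3 := by
        simp only [P3, Finset.mem_filter, Finset.mem_range]
        refine ⟨?_, hpp, hp64, hpm, hpX⟩
        have := Nat.le_floor hpX
        omega
      by_cases h6 : (K1 : ℝ) * m * (p : ℝ) ≤ X ^ 2
      · exact n3a ⟨p, Finset.mem_filter.2 ⟨hp3, h6⟩, Finset.mem_filter.2 ⟨hxA, h4, h5⟩⟩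
      · exact n3b ⟨p, Finset.mem_filter.2 ⟨hp3, h6⟩, Finset.mem_filter.2 ⟨hxA, h4, h5⟩⟩
  · have hc1 : A.card ≤ F.card + (∑ p ∈ T, (B1 p).card + ∑ p ∈ P2, (B2 p).card +
        ∑ p ∈ P3a, (B3 p).card + ∑ p ∈ P3b, (B3 p).card) := by
      have h1 := Finset.card_le_card_sdiff_add_card (t := T.biUnion B1 ∪ P2.biUnion B2 ∪
        P3a.biUnion B3 ∪ P3b.biUnion B3) (s := A)
      have k1 : (T.biUnion B1).card ≤ ∑ p ∈ T, (B1 p).card := Finset.card_biUnion_le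
      have k2 : (P2.biUnion B2).card ≤ ∑ p ∈ P2, (B2 p).card := Finset.card_biUnion_le
      have k3 : (P3a.biUnion B3).card ≤ ∑ p ∈ P3a, (B3 p).card := Finset.card_biUnion_le
      have k4 : (P3b.biUnion B3).card ≤ ∑ p ∈ P3b, (B3 p).card := Finset.card_biUnion_le
      have u1 := Finset.card_union_le (T.biUnion B1) (P2.biUnion B2)
      have u2 := Finset.card_union_le (T.biUnion B1 ∪ P2.biUnion B2) (P3a.biUnion B3)
      have u3 := Finset.card_union_le (T.biUnion B1 ∪ P2.biUnion B2 ∪ P3a.biUnion B3)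
        (P3b.biUnion B3)
      rw [← hF] at h1
      omega
    have hc2 : (A.card : ℝ) ≤ F.card + (∑ p ∈ T, ((B1 p).card : ℝ) + ∑ p ∈ P2, ((B2 p).card : ℝ) +
        ∑ p ∈ P3a, ((B3 p).card : ℝ) + ∑ p ∈ P3b, ((B3 p).card : ℝ)) := by exact_mod_cast hc1
    have hfin : Q / 2 ≤ F.card := by linarith
    refine le_trans ?_ hfin
    calc X ^ 5 / (4 * K1 * K2 * m) = X ^ 5 / (2 * K1 * K2 * m) / 2 := by field_simp; ring
      _ ≤ Q / 2 := by gcongr

/-- the product of the primes from 7 to 97 -/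
def QQ : ℕ := ∏ p ∈ (Finset.range 100).filter (fun p => p.Prime ∧ 7 ≤ p), p

theorem dvd_QQ {p : ℕ} (hp : p.Prime) (h7 : 7 ≤ p) (h : p < 100) : p ∣ QQ :=
  Finset.dvd_prod_of_mem (fun p => p) (Finset.mem_filter.2 ⟨Finset.mem_range.2 h, hp, h7⟩)

theorem of_dvd_QQ {p : ℕ} (hp : p.Prime) (h : p ∣ QQ) : 7 ≤ p ∧ p < 100 := by
  unfold QQ at h
  obtain ⟨r, hr, hpr⟩ := (Prime.dvd_finsetProd_iff hp.prime _).1 h
  obtain ⟨h1, h2, h3⟩ := Finset.mem_filter.1 hr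
  have h4 : p = r := (Nat.prime_dvd_prime_iff_eq hp h2).1 hpr
  rw [h4]
  exact ⟨h3, Finset.mem_range.1 h1⟩

theorem QQ_pos : 0 < QQ :=
  Finset.prod_pos fun _ hp => (Finset.mem_filter.1 hp).2.1.pos

theorem two_le_QQ : 2 ≤ QQ := by
  have h1 : 7 ∣ QQ := dvd_QQ (by norm_num) le_rfl (by norm_num)
  have := Nat.le_of_dvd QQ_pos h1
  omega

theorem prime_1152 {p : ℕ} (hp : p.Prime) (h : p ∣ 1152) : p = 2 ∨ p = 3 := by
  have e : (1152 : ℕ) = 2 ^ 7 * 3 ^ 2 := by norm_num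
  rw [e] at h
  rcases (Nat.Prime.dvd_mul hp).1 h with h1 | h1
  · exact Or.inl ((Nat.prime_dvd_prime_iff_eq hp Nat.prime_two).1 (hp.dvd_of_dvd_pow h1))
  · exact Or.inr ((Nat.prime_dvd_prime_iff_eq hp Nat.prime_three).1 (hp.dvd_of_dvd_pow h1))

theorem prime_1728 {p : ℕ} (hp : p.Prime) (h : p ∣ 1728) : p = 2 ∨ p = 3 := by
  have e : (1728 : ℕ) = 2 ^ 6 * 3 ^ 3 := by norm_num
  rw [e] at h
  rcases (Nat.Prime.dvd_mul hp).1 h with h1 | h1
  · exact Or.inl ((Nat.prime_dvd_prime_iff_eq hp Nat.prime_two).1 (hp.dvd_of_dvd_pow h1))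
  · exact Or.inr ((Nat.prime_dvd_prime_iff_eq hp Nat.prime_three).1 (hp.dvd_of_dvd_pow h1))

theorem copK {m : ℕ} (h : ∀ p : ℕ, p.Prime → p ∣ m → p = 5 ∨ 100 ≤ p) :
    (1152 * QQ).Coprime m ∧ Nat.Coprime 1728 m := by
  constructor
  · rw [Nat.coprime_iff_gcd_eq_one]
    by_contra hne
    obtain ⟨p, hp, hpd⟩ := Nat.exists_prime_and_dvd hne
    have h1 : p ∣ 1152 * QQ := hpd.trans (Nat.gcd_dvd_left _ _)
    have h2 := h p hp (hpd.trans (Nat.gcd_dvd_right _ _))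
    rcases (Nat.Prime.dvd_mul hp).1 h1 with h3 | h3
    · rcases prime_1152 hp h3 with h4 | h4 <;> omega
    · have := of_dvd_QQ hp h3
      omega
  · rw [Nat.coprime_iff_gcd_eq_one]
    by_contra hne
    obtain ⟨p, hp, hpd⟩ := Nat.exists_prime_and_dvd hne
    have h1 : p ∣ 1728 := hpd.trans (Nat.gcd_dvd_left _ _)
    have h2 := h p hp (hpd.trans (Nat.gcd_dvd_right _ _))
    rcases prime_1728 hp h1 with h4 | h4 <;> omega

theorem c4_Wm (x : ℤ × ℤ) : (Wm x).c₄ = 1 - 48 * x.1 := by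
  simp only [Wm, WeierstrassCurve.c₄, WeierstrassCurve.b₂, WeierstrassCurve.b₄]
  ring

theorem c6_Wm (x : ℤ × ℤ) : (Wm x).c₆ = -1 + 72 * x.1 - 864 * x.2 := by
  simp only [Wm, WeierstrassCurve.c₆, WeierstrassCurve.b₂, WeierstrassCurve.b₄,
    WeierstrassCurve.b₆]
  ring

theorem dl_ne (a b : ℤ) : (Wm (2 * a, 2 * b + 1)).Δ ≠ 0 := by
  have e : (Wm (2 * a, 2 * b + 1)).Δ =
      2 * (-b + 2 * a ^ 2 - 256 * a ^ 3 - 216 * (2 * b + 1) ^ 2 + 72 * a * (2 * b + 1)) - 1 := by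
    simp only [Wm, WeierstrassCurve.Δ, WeierstrassCurve.b₂, WeierstrassCurve.b₄,
      WeierstrassCurve.b₆, WeierstrassCurve.b₈]
    ring
  rw [e]
  omega

/-- the curve with the given invariants -/
def gg (x : ℤ × ℤ) : ℤ × ℤ := ((1 - x.1) / 48, (-1 + 72 * ((1 - x.1) / 48) - x.2) / 864)

theorem gg_spec {x : ℤ × ℤ} (h1 : x.1 ≡ 1 [ZMOD ((1152 * QQ : ℕ) : ℤ)])
    (h2 : x.2 ≡ -865 [ZMOD ((1728 : ℕ) : ℤ)]) :
    (Wm (gg x)).c₄ = x.1 ∧ (Wm (gg x)).c₆ = x.2 ∧ (Wm (gg x)).Δ ≠ 0 := by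
  obtain ⟨k, hk⟩ := h1.dvd
  obtain ⟨w, hw⟩ := h2.dvd
  push_cast at hk hw
  obtain ⟨K, hK⟩ : ∃ K : ℤ, K = (QQ : ℤ) * k := ⟨_, rfl⟩
  have hk' : 1 - x.1 = 1152 * K := by rw [hK, hk]; ring
  have e1 : (gg x).1 = 2 * (12 * K) := by
    unfold gg
    simp only
    omega
  have e2 : (gg x).2 = 2 * (K + w) + 1 := by
    unfold gg
    simp only
    omega
  have e3 : gg x = (2 * (12 * K), 2 * (K + w) + 1) := Prod.ext e1 e2
  refine ⟨?_, ?_, ?_⟩
  · rw [c4_Wm, e1]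
    omega
  · rw [c6_Wm, e1, e2]
    omega
  · rw [e3]
    exact dl_ne _ _

theorem lows : S_LOWS := by
  have hQr : (2 : ℝ) ≤ QQ := by exact_mod_cast two_le_QQ
  set KK : ℝ := ((1152 * QQ : ℕ) : ℝ) * ((1728 : ℕ) : ℝ) with hKK
  have hKK2 : (2 : ℝ) ≤ KK := by
    rw [hKK]
    push_cast
    nlinarith
  refine ⟨1 / 1000, 1 / (20 * KK), 5000 * KK, by norm_num, by positivity, by linarith, ?_⟩
  intro X z P j q hq hz0 hzP hpr hsum hX
  have hz : (6400 : ℝ) ≤ z := by linarith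
  classical
  have hq0 : q ≠ 0 := by omega
  -- primes are large
  have hbig : ∀ p : ℕ, z < (p : ℝ) → 100 < p := by
    intro p hp
    have : (100 : ℝ) < p := by linarith
    exact_mod_cast this
  have h5q : ∀ p ∈ q.primeFactors, 5 ≤ p := fun p hp => by
    have := hbig p (hpr p hp).1
    omega
  have h5nq : ¬ 5 ∣ q := by
    intro h
    have := hbig 5 (hpr 5 (Nat.mem_primeFactors.2 ⟨by norm_num, h, hq0⟩)).1
    omega
  have hfq : ∀ p : ℕ, p.Prime → (rd q).factorization p = if p ∣ q then 1 else 0 :=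
    fun p hp => fact_rd hq0 h5q hp
  have hrdq0 : 0 < rd q := rd_pos q
  set m := 5 ^ (j + 1) * q * rd q with hm
  have hm0 : m ≠ 0 := by
    rw [hm]
    exact mul_ne_zero (mul_ne_zero (pow_ne_zero _ (by norm_num)) hq0) hrdq0.ne'
  have hfm : ∀ p : ℕ, p.Prime → m.factorization p = (if p = 5 then j + 1 else 0) +
      q.factorization p + (if p ∣ q then 1 else 0) := by
    intro p hp
    rw [hm, Nat.factorization_mul (mul_ne_zero (pow_ne_zero _ (by norm_num)) hq0)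
      hrdq0.ne', Nat.factorization_mul (pow_ne_zero _ (by norm_num)) hq0, Nat.factorization_pow,
      Finsupp.add_apply, Finsupp.add_apply, Finsupp.smul_apply,
      hfq p hp, (show Nat.Prime 5 by norm_num).factorization, Finsupp.single_apply]
    by_cases h : p = 5
    · simp [h]
    · simp [h, Ne.symm h]
  have hpm : ∀ p : ℕ, p.Prime → (p ∣ m ↔ p = 5 ∨ p ∣ q) := by
    intro p hp
    rw [hp.dvd_iff_one_le_factorization hm0, hfm p hp]
    constructor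
    · intro h
      by_contra hcon
      push Not at hcon
      obtain ⟨g1, g2⟩ := hcon
      simp only [g1, g2, if_false, Nat.factorization_eq_zero_of_not_dvd g2] at h
      omega
    · rintro (h | h)
      · simp only [h, if_true]; omega
      · simp only [h, if_true]; omega
  have hpm' : ∀ p : ℕ, p.Prime → p ∣ m → p = 5 ∨ 100 ≤ p := by
    intro p hp h
    rcases (hpm p hp).1 h with h1 | h1
    · exact Or.inl h1
    · exact Or.inr (hbig p (hpr p (Nat.mem_primeFactors.2 ⟨hp, h1, hq0⟩)).1).le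
  obtain ⟨hk1, hk2⟩ := copK hpm'
  have hmr : (m : ℝ) = 5 * ((5 : ℝ) ^ j * q * rd q) := by
    rw [hm]
    push_cast
    ring
  have hphi : (m : ℝ) ≤ 2 * m.totient := by
    have h1 : (m.totient : ℝ) = m * ∏ p ∈ m.primeFactors, (1 - 1 / (p : ℝ)) := by
      have h2 := Nat.totient_eq_mul_prod_factors m
      have h3 : ((m.totient : ℚ) : ℝ) = ((m * ∏ p ∈ m.primeFactors, (1 - (p : ℚ)⁻¹) : ℚ) : ℝ) := by
        rw [h2]
      push_cast at h3
      simp only [one_div]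
      exact h3
    have h4 : 1 - ∑ p ∈ m.primeFactors, 1 / (p : ℝ) ≤ ∏ p ∈ m.primeFactors, (1 - 1 / (p : ℝ)) := by
      apply one_sub_sum
      · intro p _; positivity
      · intro p hp
        have : (1 : ℝ) ≤ p := by exact_mod_cast (Nat.prime_of_mem_primeFactors hp).one_le
        rw [div_le_one (by linarith)]
        exact this
    have h5 : ∑ p ∈ m.primeFactors, 1 / (p : ℝ) ≤ ∑ p ∈ insert 5 q.primeFactors, 1 / (p : ℝ) := by
      apply Finset.sum_le_sum_of_subset_of_nonneg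
      · intro p hp
        obtain ⟨h6, h7, -⟩ := Nat.mem_primeFactors.1 hp
        rw [Finset.mem_insert, Nat.mem_primeFactors]
        rcases (hpm p h6).1 h7 with h | h
        · exact Or.inl h
        · exact Or.inr ⟨h6, h, hq0⟩
      · intro p _ _; positivity
    have h6 : (5 : ℕ) ∉ q.primeFactors := by
      intro h
      have := hbig 5 (hpr 5 h).1
      omega
    rw [Finset.sum_insert h6] at h5
    have h7 : (1 / 2 : ℝ) ≤ ∏ p ∈ m.primeFactors, (1 - 1 / (p : ℝ)) := by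
      push_cast at h5
      linarith
    rw [h1]
    have h8 : (0 : ℝ) ≤ m := Nat.cast_nonneg _
    nlinarith
  obtain ⟨F, hF, hcard⟩ := sieveS (X := X) (z := z) (P := P) (m := m) (K1 := 1152 * QQ)
    (K2 := 1728) (T := q.primeFactors) (-865) hk1 hk2
    (by have := two_le_QQ; omega) (by norm_num) (by have := two_le_QQ; omega)
    (by
      intro p hp h100
      obtain ⟨g1, g2⟩ := copK (m := p) (fun r hr hrp => by
        have := (Nat.prime_dvd_prime_iff_eq hr hp).1 hrp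
        omega)
      exact ⟨g1, g2⟩)
    (Nat.one_le_iff_ne_zero.2 hm0) hz hzP (by
      rw [hmr]
      calc 1000 * ((1152 * QQ : ℕ) : ℝ) * ((1728 : ℕ) : ℝ) * (5 * ((5 : ℝ) ^ j * q * rd q)) * P ^ 2 =
          5000 * KK * ((5 : ℝ) ^ j * q * rd q) * P ^ 2 := by rw [hKK]; ring
        _ ≤ X := hX)
    (by
      intro p hp
      obtain ⟨h6, h7, -⟩ := Nat.mem_primeFactors.1 hp
      refine ⟨h6, ?_, (hpr p hp).2, (hbig p (hpr p hp).1).le⟩
      rw [hpm p h6]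
      exact Or.inr h7) hsum hphi
  have hinj : Set.InjOn gg (F : Set (ℤ × ℤ)) := by
    intro x hx y hy hxy
    obtain ⟨-, -, a1, a2, -⟩ := hF x hx
    obtain ⟨-, -, b1, b2, -⟩ := hF y hy
    obtain ⟨u1, u2, -⟩ := gg_spec a1 a2
    obtain ⟨v1, v2, -⟩ := gg_spec b1 b2
    rw [hxy] at u1 u2
    exact Prod.ext (u1.symm.trans v1) (u2.symm.trans v2)
  refine ⟨F.image gg, ?_, ?_⟩
  swap
  · rw [Finset.card_image_of_injOn hinj]
    refine le_trans (le_of_eq ?_) hcard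
    rw [hmr]
    have h3 : (0 : ℝ) < q := by exact_mod_cast Nat.pos_of_ne_zero hq0
    have h5 : (0 : ℝ) < rd q := by exact_mod_cast hrdq0
    have h6 : (4 : ℝ) * ((1152 * QQ : ℕ) : ℝ) * ((1728 : ℕ) : ℝ) = 4 * KK := by rw [hKK]; ring
    rw [h6]
    field_simp
    ring
  intro y hy
  obtain ⟨x, hx, rfl⟩ := Finset.mem_image.1 hy
  obtain ⟨g1, g2, g3, g3', g4, g5, g6, g7, g8⟩ := hF x hx
  obtain ⟨e4, e6, hD0⟩ := gg_spec g3 g3'
  have hrel : 1728 * (Wm (gg x)).Δ = x.1 ^ 3 - x.2 ^ 2 := by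
    rw [(Wm (gg x)).c_relation, e4, e6]
  rw [e4, e6]
  set D := (Wm (gg x)).Δ with hD
  have hDn0 : D.natAbs ≠ 0 := Int.natAbs_ne_zero.2 hD0
  have hmDi : (m : ℤ) ∣ D := by
    rw [← hrel] at g5
    have h1 : IsCoprime (m : ℤ) ((1728 : ℕ) : ℤ) := (Nat.isCoprime_iff_coprime.2 hk2).symm
    exact h1.dvd_of_dvd_mul_left (by exact_mod_cast g5)
  have hmD : m ∣ D.natAbs := Int.natCast_dvd.1 hmDi
  have hDD : D ∣ x.1 ^ 3 - x.2 ^ 2 := ⟨1728, by rw [← hrel]; ring⟩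
  have hnx : ∀ p : ℕ, p.Prime → p ∣ m → ¬ (p : ℤ) ∣ x.1 := by
    intro p hp hpm' hpx
    have h1 : IsCoprime x.1 (p : ℤ) :=
      IsCoprime.of_isCoprime_of_dvd_right g4 (by exact_mod_cast hpm')
    have h2 : IsUnit (p : ℤ) := h1.isUnit_of_dvd' hpx dvd_rfl
    exact (Nat.prime_iff_prime_int.1 hp).not_isUnit h2
  have hcopD : ∀ p : ℕ, p.Prime → (p : ℤ) ∣ x.1 → ¬ (p : ℤ) ∣ D := by
    intro p hp hpx hpD
    have hpi := Nat.prime_iff_prime_int.1 hp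
    have h2 : (p : ℤ) ∣ x.2 := by
      have h3 : (p : ℤ) ∣ x.1 ^ 3 - (x.1 ^ 3 - x.2 ^ 2) :=
        dvd_sub (dvd_pow hpx (by norm_num)) (hpD.trans hDD)
      rw [sub_sub_cancel] at h3
      exact hpi.dvd_of_dvd_pow h3
    have hK : ¬ p ∣ 1152 * QQ := by
      intro h3
      have h4 : ((p : ℕ) : ℤ) ∣ ((1152 * QQ : ℕ) : ℤ) := by exact_mod_cast h3
      have h5 : (p : ℤ) ∣ 1 := by
        have h6 := dvd_add (h4.trans g3.dvd) hpx
        rwa [sub_add_cancel] at h6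
      exact hpi.not_isUnit (isUnit_of_dvd_one h5)
    by_cases hpm1 : p ∣ m
    · exact hnx p hp hpm1 hpx
    · by_cases h100 : 100 ≤ p
      · exact g8 p hp h100 hpm1 ⟨hpx, h2⟩
      · by_cases h7 : 7 ≤ p
        · exact hK ((dvd_QQ hp h7 (by omega)).trans (dvd_mul_left _ _))
        · have h8 := hp.two_le
          have h9 : p ≠ 5 := by
            rintro rfl
            exact hpm1 ((hpm 5 hp).2 (Or.inl rfl))
          have h10 : p = 2 ∨ p = 3 ∨ p = 4 ∨ p = 6 := by omega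
          rcases h10 with h | h | h | h
          · subst h
            exact hK (dvd_mul_of_dvd_left (by norm_num) _)
          · subst h
            exact hK (dvd_mul_of_dvd_left (by norm_num) _)
          · subst h; norm_num at hp
          · subst h; norm_num at hp
  have hDT : ∀ p : ℕ, p ∈ q.primeFactors →
      D.natAbs.factorization p = m.factorization p := by
    intro p hp
    obtain ⟨h6, h7, -⟩ := Nat.mem_primeFactors.1 hp
    apply val_eq hm0 h6 hDn0 hmD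
    · intro h
      exact g6 p hp ((Int.natCast_dvd.2 h).trans hDD)
    · rw [hpm p h6]
      exact Or.inr h7
  refine ⟨hD0, ?_, g1, g2, ?_, ?_⟩
  · rw [Int.isCoprime_iff_gcd_eq_one]
    by_contra hne
    obtain ⟨p, hp, hpd⟩ := Nat.exists_prime_and_dvd hne
    have h1 : (p : ℤ) ∣ x.1 := (Int.natCast_dvd_natCast.2 hpd).trans (Int.gcd_dvd_left _ _)
    have h2 : (p : ℤ) ∣ D := (Int.natCast_dvd_natCast.2 hpd).trans (Int.gcd_dvd_right _ _)
    exact hcopD p hp h1 h2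
  · intro p hp
    obtain ⟨hpp, hpd, -⟩ := Nat.mem_primeFactors.1 hp
    have h5j : (5 : ℕ) ^ j ≠ 0 := pow_ne_zero _ (by norm_num)
    have hv : (5 ^ j * q).factorization p = (if p = 5 then j else 0) + q.factorization p := by
      rw [Nat.factorization_mul h5j hq0,
        Nat.factorization_pow, Finsupp.add_apply, Finsupp.smul_apply,
        (show Nat.Prime 5 by norm_num).factorization, Finsupp.single_apply]
      by_cases h : p = 5
      · simp [h]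
      · simp [h, Ne.symm h]
    have hpc : p = 5 ∨ p ∣ q := by
      rcases (Nat.Prime.dvd_mul hpp).1 hpd with h | h
      · exact Or.inl ((Nat.prime_dvd_prime_iff_eq hpp (by norm_num)).1
            (hpp.dvd_of_dvd_pow h))
      · exact Or.inr h
    have hle : (5 ^ j * q).factorization p + 1 ≤ D.natAbs.factorization p := by
      have h1 : m.factorization p ≤ D.natAbs.factorization p :=
        (Nat.factorization_le_iff_dvd hm0 hDn0).2 hmD p
      rw [hv]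
      rw [hfm p hpp] at h1
      rcases hpc with h | h
      · subst h
        simp only [h5nq, if_true, if_false] at h1 ⊢
        omega
      · have h3 : p ≠ 5 := by rintro rfl; exact h5nq h
        simp only [h, h3, if_true, if_false] at h1 ⊢
        omega
    have h1 : p ^ ((5 ^ j * q).factorization p + 1) ∣ D.natAbs :=
      (pow_dvd_pow p hle).trans (Nat.ordProj_dvd _ _)
    have h2 := Int.natCast_dvd.2 h1
    push_cast at h2
    exact h2
  · intro p hp hzp hpP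
    have hp5 := hbig p hzp
    have hp5' : p ≠ 5 := by omega
    by_cases h : p ∣ q
    · have h1 := hDT p (Nat.mem_primeFactors.2 ⟨hp, h, hq0⟩)
      rw [hfm p hp] at h1
      simp only [h, hp5', if_true, if_false] at h1
      omega
    · have hpm1 : ¬ p ∣ m := by
        intro h2
        rcases (hpm p hp).1 h2 with h3 | h3
        · exact hp5' h3
        · exact h h3
      rw [Nat.factorization_eq_zero_of_not_dvd h]
      by_cases hpx : (p : ℤ) ∣ x.1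
      · have h1 : ¬ p ∣ D.natAbs := fun h2 => hcopD p hp hpx (Int.natCast_dvd.2 h2)
        rw [Nat.factorization_eq_zero_of_not_dvd h1]
      · have h8 : D.natAbs.factorization p < 2 := by
          by_contra h9
          push Not at h9
          have h10 : p ^ 2 ∣ D.natAbs :=
            (pow_dvd_pow p h9).trans (Nat.ordProj_dvd _ _)
          have h11 := Int.natCast_dvd.2 h10
          push_cast at h11
          exact g7 p hp hzp hpP hpm1 hpx (h11.trans hDD)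
        omega

end Pool.Agent.N93.SS
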