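import Mathlib

/-!
Pairs of square matrices `A`, `B` with `A B` diagonal: two of the components.
-/

set_option autoImplicit false

namespace Pool.Agent.N93.Crown

open Matrix

variable {T : Type*} [CommRing T] {d : ℕ}

/-- the determinant of a matrix whose columns other than `p`, `q` are multiples of the basis
vectors -/
lemma det_two_cols (M : Matrix (Fin d) (Fin d) T) (p q : Fin d) (hpq : p ≠ q) (δ : Fin d → T)
    (hM : ∀ i j, j ≠ p → j ≠ q → M i j = if i = j then δ j else 0) :
    M.det = (M p p * M q q - M p q * M q p) * ∏ j : {j : Fin d // ¬ (j = p ∨ j = q)}, δ j := by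
  classical
  rw [twoBlockTriangular_det' M (fun i => i = p ∨ i = q)]
  · congr 1
    · let e : Fin 2 → {i : Fin d // i = p ∨ i = q} := ![⟨p, Or.inl rfl⟩, ⟨q, Or.inr rfl⟩]
      have he : Function.Bijective e := by
        constructor
        · intro i j h
          fin_cases i <;> fin_cases j <;> simp_all [e]
        · rintro ⟨i, hi⟩
          rcases hi with rfl | rfl
          · exact ⟨0, rfl⟩
          · exact ⟨1, rfl⟩
      rw [← det_submatrix_equiv_self (Equiv.ofBijective e he), det_fin_two]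
      simp [e, toSquareBlockProp]
    · have h1 : toSquareBlockProp M (fun i => ¬ (i = p ∨ i = q)) =
          diagonal (fun j : {j : Fin d // ¬ (j = p ∨ j = q)} => δ j) := by
        ext ⟨i, hi⟩ ⟨j, hj⟩
        rw [toSquareBlockProp_def]
        simp only [of_apply, diagonal_apply, Subtype.mk.injEq]
        push Not at hj
        rw [hM i j hj.1 hj.2]
        by_cases h : i = j
        · subst h; simp
        · simp [h]
      rw [h1, det_diagonal]
  · intro i hi j hj
    push Not at hj
    rw [hM i j hj.1 hj.2, if_neg]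
    rintro rfl
    rcases hi with h | h
    · exact hj.1 h
    · exact hj.2 h

/-- the matrix `B` with the columns `p`, `q` replaced by the basis vectors `c₀`, `c₁` -/
def rep (B : Matrix (Fin d) (Fin d) T) (c₀ c₁ p q : Fin d) : Matrix (Fin d) (Fin d) T :=
  fun i j => if j = p then (if i = c₀ then 1 else 0) else
    if j = q then (if i = c₁ then 1 else 0) else B i j

/-- the minor of the columns `c₀`, `c₁` and the rows `p`, `q` -/
def mn (A : Matrix (Fin d) (Fin d) T) (c₀ c₁ p q : Fin d) : T :=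
  A p c₀ * A q c₁ - A p c₁ * A q c₀

/-- complementary minors -/
lemma det_mul_rep (A B : Matrix (Fin d) (Fin d) T) (hAB : ∀ i j, i ≠ j → (A * B) i j = 0)
    (c₀ c₁ p q : Fin d) (hpq : p ≠ q) :
    A.det * (rep B c₀ c₁ p q).det = mn A c₀ c₁ p q *
      ∏ j : {j : Fin d // ¬ (j = p ∨ j = q)}, (A * B) j j := by
  have hcol : ∀ i j, (A * rep B c₀ c₁ p q) i j =
      if j = p then A i c₀ else if j = q then A i c₁ else (A * B) i j := by
    intro i j
    rw [mul_apply]
    by_cases hp : j = p
    · simp [rep, hp]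
    · by_cases hq : j = q
      · simp [rep, hq, Ne.symm hpq]
      · simp [rep, hp, hq, mul_apply]
  rw [← det_mul, det_two_cols _ p q hpq (fun j => (A * B) j j)]
  · rw [hcol, hcol, hcol, hcol]
    simp [mn, Ne.symm hpq]
  · intro i j hp hq
    rw [hcol, if_neg hp, if_neg hq]
    by_cases h : i = j
    · subst h; simp
    · rw [if_neg h, hAB i j h]

lemma prod_subtype_not (P : Fin d → Prop) [DecidablePred P] (δ : Fin d → T) :
    ∏ j : {j : Fin d // ¬ P j}, δ j = ∏ j, if P j then 1 else δ j := by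
  classical
  rw [Finset.prod_ite, Finset.prod_const_one, one_mul]
  exact (Finset.prod_subtype _ (by simp) _).symm

section four

variable {k : ℕ}

/-- a polynomial vanishing on the component of the pairs `A`, `B` with `A B` diagonal and
`det A ≠ 0` -/
def ff (A B : Matrix (Fin (k + 4)) (Fin (k + 4)) T) : T :=
  (rep B 0 1 0 1).det * (rep B 0 1 2 3).det * (mn A 0 1 0 2 * mn A 0 1 1 3) -
    (rep B 0 1 0 2).det * (rep B 0 1 1 3).det * (mn A 0 1 0 1 * mn A 0 1 2 3)

lemma det_sq_mul_ff (A B : Matrix (Fin (k + 4)) (Fin (k + 4)) T)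
    (hAB : ∀ i j, i ≠ j → (A * B) i j = 0) : A.det ^ 2 * ff A B = 0 := by
  have n01 : (0 : Fin (k + 4)) ≠ 1 := by simp
  have n23 : (2 : Fin (k + 4)) ≠ 3 := by simp [Fin.ext_iff, Nat.mod_eq_of_lt]
  have n02 : (0 : Fin (k + 4)) ≠ 2 := by simp [Fin.ext_iff, Nat.mod_eq_of_lt]
  have n13 : (1 : Fin (k + 4)) ≠ 3 := by simp [Fin.ext_iff, Nat.mod_eq_of_lt]
  have n03 : (0 : Fin (k + 4)) ≠ 3 := by simp [Fin.ext_iff, Nat.mod_eq_of_lt]
  have n12 : (1 : Fin (k + 4)) ≠ 2 := by simp [Fin.ext_iff, Nat.mod_eq_of_lt]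
  have h1 := det_mul_rep A B hAB 0 1 0 1 n01
  have h2 := det_mul_rep A B hAB 0 1 2 3 n23
  have h3 := det_mul_rep A B hAB 0 1 0 2 n02
  have h4 := det_mul_rep A B hAB 0 1 1 3 n13
  rw [prod_subtype_not (fun j => j = 0 ∨ j = 1) (fun j => (A * B) j j)] at h1
  rw [prod_subtype_not (fun j => j = 2 ∨ j = 3) (fun j => (A * B) j j)] at h2
  rw [prod_subtype_not (fun j => j = 0 ∨ j = 2) (fun j => (A * B) j j)] at h3
  rw [prod_subtype_not (fun j => j = 1 ∨ j = 3) (fun j => (A * B) j j)] at h4
  have key : (∏ j, if j = (0 : Fin (k + 4)) ∨ j = 1 then 1 else (A * B) j j) *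
      (∏ j, if j = (2 : Fin (k + 4)) ∨ j = 3 then 1 else (A * B) j j) =
      (∏ j, if j = (0 : Fin (k + 4)) ∨ j = 2 then 1 else (A * B) j j) *
      (∏ j, if j = (1 : Fin (k + 4)) ∨ j = 3 then 1 else (A * B) j j) := by
    rw [← Finset.prod_mul_distrib, ← Finset.prod_mul_distrib]
    apply Finset.prod_congr rfl
    intro j _
    by_cases h0 : j = 0
    · subst h0; simp [n01, n02, n03]
    · by_cases h1 : j = 1
      · subst h1; simp [n01.symm, n12, n13]
      · by_cases h2 : j = 2
        · subst h2; simp [n02.symm, n12.symm, n23]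
        · by_cases h3 : j = 3
          · subst h3; simp [n03.symm, n13.symm, n23.symm]
          · simp [h0, h1, h2, h3]
  rw [ff]
  linear_combination (mn A 0 1 0 2 * mn A 0 1 1 3) * (A.det * (rep B 0 1 2 3).det * h1) +
    (mn A 0 1 0 2 * mn A 0 1 1 3) * (mn A 0 1 0 1 *
      (∏ j, if j = (0 : Fin (k + 4)) ∨ j = 1 then 1 else (A * B) j j)) * h2 -
    (mn A 0 1 0 1 * mn A 0 1 2 3) * (A.det * (rep B 0 1 1 3).det * h3) -
    (mn A 0 1 0 1 * mn A 0 1 2 3) * (mn A 0 1 0 2 *
      (∏ j, if j = (0 : Fin (k + 4)) ∨ j = 2 then 1 else (A * B) j j)) * h4 +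
    mn A 0 1 0 1 * mn A 0 1 2 3 * mn A 0 1 0 2 * mn A 0 1 1 3 * key

/-- the first matrix of a point of another component -/
def A₀ (T : Type*) [CommRing T] (k : ℕ) : Matrix (Fin (k + 4)) (Fin (k + 4)) T :=
  fun i j => if (j = 0 ∧ (i = 0 ∨ i = 1)) ∨ (j = 1 ∧ (i = 2 ∨ i = 3)) then 1 else 0

/-- the second matrix of a point of another component -/
def B₀ (T : Type*) [CommRing T] (k : ℕ) : Matrix (Fin (k + 4)) (Fin (k + 4)) T :=
  fun i j => if i = 0 ∨ i = 1 then 0 else
    if i = j ∨ (i = 2 ∧ j = 0) ∨ (i = 3 ∧ j = 1) then 1 else 0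

lemma A₀_mul_B₀ : A₀ T k * B₀ T k = 0 := by
  ext i j
  rw [mul_apply, Matrix.zero_apply]
  apply Finset.sum_eq_zero
  intro l _
  by_cases h0 : l = 0
  · subst h0; simp [B₀]
  · by_cases h1 : l = 1
    · subst h1; simp [B₀]
    · simp [A₀, h0, h1]

lemma ff_point : ff (A₀ T k) (B₀ T k) = 1 := by
  have n01 : (0 : Fin (k + 4)) ≠ 1 := by simp
  have n23 : (2 : Fin (k + 4)) ≠ 3 := by simp [Fin.ext_iff, Nat.mod_eq_of_lt]
  have n02 : (0 : Fin (k + 4)) ≠ 2 := by simp [Fin.ext_iff, Nat.mod_eq_of_lt]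
  have n13 : (1 : Fin (k + 4)) ≠ 3 := by simp [Fin.ext_iff, Nat.mod_eq_of_lt]
  have n03 : (0 : Fin (k + 4)) ≠ 3 := by simp [Fin.ext_iff, Nat.mod_eq_of_lt]
  have n12 : (1 : Fin (k + 4)) ≠ 2 := by simp [Fin.ext_iff, Nat.mod_eq_of_lt]
  have h1 : (rep (B₀ T k) 0 1 0 1).det = 1 := by
    have : rep (B₀ T k) 0 1 0 1 = 1 := by
      ext i j
      simp only [rep, B₀, Matrix.one_apply]
      by_cases hj0 : j = 0
      · subst hj0; simp
      · by_cases hj1 : j = 1
        · subst hj1; simp [n01.symm]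
        · by_cases hi0 : i = 0
          · subst hi0; simp [hj0, hj1, Ne.symm hj0]
          · by_cases hi1 : i = 1
            · subst hi1; simp [hj0, hj1, Ne.symm hj1]
            · simp [hj0, hj1, hi0, hi1]
    rw [this, det_one]
  have h2 : (rep (B₀ T k) 0 1 2 3).det = 1 := by
    have : rep (B₀ T k) 0 1 2 3 = (1 : Matrix (Fin (k + 4)) (Fin (k + 4)) T).submatrix id
        (Equiv.swap 0 2 * Equiv.swap 1 3 : Equiv.Perm (Fin (k + 4))) := by
      ext i j
      change rep (B₀ T k) 0 1 2 3 i j = (1 : Matrix (Fin (k + 4)) (Fin (k + 4)) T) i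
        ((Equiv.swap 0 2 * Equiv.swap 1 3 : Equiv.Perm (Fin (k + 4))) j)
      have s0 : (Equiv.swap 0 2 * Equiv.swap 1 3 : Equiv.Perm (Fin (k + 4))) 0 = 2 := by
        rw [Equiv.Perm.mul_apply, Equiv.swap_apply_of_ne_of_ne n01 n03, Equiv.swap_apply_left]
      have s1 : (Equiv.swap 0 2 * Equiv.swap 1 3 : Equiv.Perm (Fin (k + 4))) 1 = 3 := by
        rw [Equiv.Perm.mul_apply, Equiv.swap_apply_left,
          Equiv.swap_apply_of_ne_of_ne n03.symm n23.symm]
      have s2 : (Equiv.swap 0 2 * Equiv.swap 1 3 : Equiv.Perm (Fin (k + 4))) 2 = 0 := by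
        rw [Equiv.Perm.mul_apply, Equiv.swap_apply_of_ne_of_ne n12.symm n23,
          Equiv.swap_apply_right]
      have s3 : (Equiv.swap 0 2 * Equiv.swap 1 3 : Equiv.Perm (Fin (k + 4))) 3 = 1 := by
        rw [Equiv.Perm.mul_apply, Equiv.swap_apply_right,
          Equiv.swap_apply_of_ne_of_ne n01.symm n12]
      by_cases hj0 : j = 0
      · subst hj0
        rw [s0, Matrix.one_apply]
        simp only [rep, B₀]
        by_cases hi2 : i = 2
        · subst hi2; simp [n02, n03, n02.symm, n12.symm]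
        · by_cases hi0 : i = 0
          · subst hi0; simp [n02, n03]
          · simp [hi2, hi0, n02, n03, n01]
      · by_cases hj1 : j = 1
        · subst hj1
          rw [s1, Matrix.one_apply]
          simp only [rep, B₀]
          by_cases hi3 : i = 3
          · subst hi3; simp [n12, n13, n03.symm, n13.symm]
          · by_cases hi1 : i = 1
            · subst hi1; simp [n12, n13]
            · simp [hi3, hi1, n12, n13, n01.symm]
        · by_cases hj2 : j = 2
          · subst hj2
            rw [s2, Matrix.one_apply]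
            simp [rep]
          · by_cases hj3 : j = 3
            · subst hj3
              rw [s3, Matrix.one_apply]
              simp [rep, n23.symm]
            · rw [Equiv.Perm.mul_apply, Equiv.swap_apply_of_ne_of_ne hj1 hj3,
                Equiv.swap_apply_of_ne_of_ne hj0 hj2, Matrix.one_apply]
              simp only [rep, B₀]
              by_cases hi0 : i = 0
              · subst hi0; simp [hj2, hj3, Ne.symm hj0]
              · by_cases hi1 : i = 1
                · subst hi1; simp [hj2, hj3, Ne.symm hj1]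
                · simp [hj0, hj1, hj2, hj3, hi0, hi1]
    rw [this, det_permute', det_one, Equiv.Perm.sign_mul, Equiv.Perm.sign_swap n02,
      Equiv.Perm.sign_swap n13]
    simp
  have h3 : (rep (B₀ T k) 0 1 0 2).det = 0 := by
    apply det_zero_of_column_eq n13
    intro i
    simp only [rep, B₀]
    by_cases hi0 : i = 0
    · subst hi0; simp [n01.symm, n12, n03.symm, n23.symm]
    · by_cases hi1 : i = 1
      · subst hi1; simp [n01.symm, n12, n03.symm, n23.symm]
      · by_cases hi3 : i = 3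
        · subst hi3; simp [n01.symm, n12, n03.symm, n23.symm, n13.symm]
        · simp [n01.symm, n12, n03.symm, n23.symm, n13.symm, hi0, hi1, hi3]
  rw [ff, h1, h2, h3]
  simp [mn, A₀, n01, n02, n03, n12, n13, n23, n01.symm, n02.symm, n03.symm, n12.symm, n13.symm,
    n23.symm]

lemma map_ff {T' : Type*} [CommRing T'] (φ : T →+* T')
    (A B : Matrix (Fin (k + 4)) (Fin (k + 4)) T) :
    φ (ff A B) = ff (A.map φ) (B.map φ) := by
  have h1 : ∀ p q, φ (rep B 0 1 p q).det = (rep (B.map φ) 0 1 p q).det := by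
    intro p q
    rw [RingHom.map_det]
    congr 1
    ext i j
    simp only [rep, RingHom.mapMatrix_apply, Matrix.map_apply]
    split_ifs <;> simp
  have h2 : ∀ p q, φ (mn A 0 1 p q) = mn (A.map φ) 0 1 p q := by
    intro p q
    simp [mn]
  simp only [ff, map_sub, map_mul, h1, h2]

end four

end Pool.Agent.N93.Crown
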