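import Mathlib

/-!
The Stanley-Reisner ideal of the disjoint union of the boundaries of two simplices: its v-number
and its depth.
-/

set_option autoImplicit false

namespace Pool.Agent.N93.VNum

open MvPolynomial

variable {K : Type*} [Field K] {n : ℕ}

/-- the exponents of the monomials of the ideal -/
def Bad (L : Fin n → Prop) (c : Fin n →₀ ℕ) : Prop :=
  (∃ i j, L i ∧ ¬ L j ∧ c i ≠ 0 ∧ c j ≠ 0) ∨ (∀ i, L i → c i ≠ 0) ∨ (∀ j, ¬ L j → c j ≠ 0)

lemma Bad_not (L : Fin n → Prop) (c : Fin n →₀ ℕ) : Bad (fun i => ¬ L i) c ↔ Bad L c := by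
  classical
  unfold Bad
  constructor
  · rintro (⟨i, j, hi, hj, h1, h2⟩ | h | h)
    · exact Or.inl ⟨j, i, not_not.1 hj, hi, h2, h1⟩
    · exact Or.inr (Or.inr h)
    · exact Or.inr (Or.inl fun i hi => h i (not_not.2 hi))
  · rintro (⟨i, j, hi, hj, h1, h2⟩ | h | h)
    · exact Or.inl ⟨j, i, hj, not_not.2 hi, h2, h1⟩
    · exact Or.inr (Or.inr fun i hi => h i (not_not.1 hi))
    · exact Or.inr (Or.inl h)

/-- the combinatorial lower bound -/
lemma degree_ge {L : Fin n → Prop} [DecidablePred L] {d : ℕ} (hd : 1 ≤ d)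
    (hL : d + 1 ≤ (Finset.univ.filter L).card)
    (hR : d + 1 ≤ (Finset.univ.filter fun i => ¬ L i).card) (c : Fin n →₀ ℕ) (hc : ¬ Bad L c)
    (k : Fin n) (hk : L k) (hkc : Bad L (c + Finsupp.single k 1))
    (hjc : ∀ j, ¬ L j → Bad L (c + Finsupp.single j 1)) : d ≤ c.degree := by
  classical
  have hneL : ∃ i, L i := ⟨k, hk⟩
  obtain ⟨j0, j1, hj0, hj1, hj01⟩ : ∃ j0 j1, ¬ L j0 ∧ ¬ L j1 ∧ j0 ≠ j1 := by
    obtain ⟨a, ha, b, hb, hab⟩ := Finset.one_lt_card.1
      (show 1 < (Finset.univ.filter fun i => ¬ L i).card by omega)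
    exact ⟨a, b, (Finset.mem_filter.1 ha).2, (Finset.mem_filter.1 hb).2, hab⟩
  have h1 : ∃ i, L i ∧ c i ≠ 0 := by
    by_contra hcon
    push Not at hcon
    apply hc
    have key : ∀ j, ¬ L j → ∀ j', ¬ L j' → j' ≠ j → c j' ≠ 0 := by
      intro j hj j' hj' hne
      rcases hjc j hj with ⟨i, l, hi, hl, h2, h3⟩ | h2 | h2
      · have : i ≠ j := fun h => hj (h ▸ hi)
        rw [Finsupp.add_apply, Finsupp.single_apply, if_neg this.symm, hcon i hi] at h2
        exact absurd rfl h2
      · have : k ≠ j := fun h => hj (h ▸ hk)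
        have h3 := h2 k hk
        rw [Finsupp.add_apply, Finsupp.single_apply, if_neg this.symm, hcon k hk] at h3
        exact absurd rfl h3
      · have h3 := h2 j' hj'
        rwa [Finsupp.add_apply, Finsupp.single_apply, if_neg hne.symm, add_zero] at h3
    refine Or.inr (Or.inr fun j hj => ?_)
    by_cases h : j = j0
    · exact key j1 hj1 j hj (by rw [h]; exact hj01)
    · exact key j0 hj0 j hj h
  obtain ⟨i0, hi0, hci0⟩ := h1
  have h2 : ∀ j, ¬ L j → c j = 0 := by
    intro j hj
    by_contra hcon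
    exact hc (Or.inl ⟨i0, j, hi0, hj, hci0, hcon⟩)
  have h3 : ∀ i, L i → i ≠ k → c i ≠ 0 := by
    intro i hi hik
    rcases hkc with ⟨i', l, hi', hl, h4, h5⟩ | h4 | h4
    · have : l ≠ k := fun h => hl (h ▸ hk)
      rw [Finsupp.add_apply, Finsupp.single_apply, if_neg this.symm, h2 l hl] at h5
      exact absurd rfl h5
    · have h5 := h4 i hi
      rwa [Finsupp.add_apply, Finsupp.single_apply, if_neg hik.symm, add_zero] at h5
    · have : j0 ≠ k := fun h => hj0 (h ▸ hk)
      have h5 := h4 j0 hj0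
      rw [Finsupp.add_apply, Finsupp.single_apply, if_neg this.symm, h2 j0 hj0] at h5
      exact absurd rfl h5
  have h4 : ((Finset.univ.filter L).erase k).card ≤ c.degree := by
    have h5 : ((Finset.univ.filter L).erase k) ⊆ c.support := by
      intro i hi
      rw [Finset.mem_erase, Finset.mem_filter] at hi
      rw [Finsupp.mem_support_iff]
      exact h3 i hi.2.2 hi.1
    calc ((Finset.univ.filter L).erase k).card
        = ∑ _i ∈ (Finset.univ.filter L).erase k, 1 := by simp
      _ ≤ ∑ i ∈ (Finset.univ.filter L).erase k, c i := by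
          apply Finset.sum_le_sum
          intro i hi
          have := Finsupp.mem_support_iff.1 (h5 hi)
          omega
      _ ≤ ∑ i ∈ c.support, c i := Finset.sum_le_sum_of_subset h5
      _ = c.degree := by rw [Finsupp.degree_apply]
  rw [Finset.card_erase_of_mem (by simp [hk])] at h4
  omega

/-- A prime ideal generated by variables. -/
lemma span_X_isPrime (s : Set (Fin n)) :
    (Ideal.span (X '' s) : Ideal (MvPolynomial (Fin n) K)).IsPrime := by
  classical
  let φ : MvPolynomial (Fin n) K →ₐ[K] MvPolynomial (Fin n) K :=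
    aeval fun i => if i ∈ s then 0 else X i
  have h1 : ∀ f, f - φ f ∈ (Ideal.span (X '' s) : Ideal (MvPolynomial (Fin n) K)) := by
    intro f
    induction f using MvPolynomial.induction_on with
    | C a => simp [φ]
    | add p q hp hq =>
      have : p + q - φ (p + q) = (p - φ p) + (q - φ q) := by rw [map_add]; ring
      rw [this]
      exact Ideal.add_mem _ hp hq
    | mul_X p i hp =>
      have : p * X i - φ (p * X i) = (p - φ p) * X i + φ p * (X i - φ (X i)) := by
        rw [map_mul]; ring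
      rw [this]
      refine Ideal.add_mem _ (Ideal.mul_mem_right _ _ hp) (Ideal.mul_mem_left _ _ ?_)
      by_cases hi : i ∈ s
      · simp only [φ, aeval_X, if_pos hi, sub_zero]
        exact Ideal.subset_span ⟨i, hi, rfl⟩
      · simp [φ, if_neg hi]
  have h2 : (Ideal.span (X '' s) : Ideal (MvPolynomial (Fin n) K)) = RingHom.ker φ.toRingHom := by
    apply le_antisymm
    · rw [Ideal.span_le]
      rintro _ ⟨i, hi, rfl⟩
      simp [φ, hi]
    · intro f hf
      have h3 : φ f = 0 := hf
      have h4 := h1 f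
      rwa [h3, sub_zero] at h4
  rw [h2]
  exact RingHom.ker_isPrime _

/-- the exponent of the squarefree monomial of `A` -/
noncomputable def ex (A : Finset (Fin n)) : Fin n →₀ ℕ := ∑ i ∈ A, Finsupp.single i 1

lemma ex_apply (A : Finset (Fin n)) (j : Fin n) : ex A j = if j ∈ A then 1 else 0 := by
  classical
  rw [ex, Finsupp.finsetSum_apply]
  simp [Finsupp.single_apply]

lemma prod_X_eq (A : Finset (Fin n)) :
    (∏ i ∈ A, X i : MvPolynomial (Fin n) K) = monomial (ex A) 1 := by
  rw [ex, monomial_sum_one]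
  rfl

lemma ex_le_iff (A : Finset (Fin n)) (c : Fin n →₀ ℕ) : ex A ≤ c ↔ ∀ i ∈ A, c i ≠ 0 := by
  constructor
  · intro h i hi
    have := h i
    rw [ex_apply, if_pos hi] at this
    omega
  · intro h i
    rw [ex_apply]
    split_ifs with hi
    · have := h i hi; omega
    · exact Nat.zero_le _

/-- the ideal generated by the squarefree monomials of the sets in `E` -/
lemma mem_span_iff (E : Set (Finset (Fin n))) (f : MvPolynomial (Fin n) K) :
    f ∈ Ideal.span ((fun A : Finset (Fin n) => (∏ i ∈ A, X i : MvPolynomial (Fin n) K)) '' E) ↔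
      ∀ c ∈ f.support, ∃ A ∈ E, ∀ i ∈ A, c i ≠ 0 := by
  have h1 : ((fun A : Finset (Fin n) => (∏ i ∈ A, X i : MvPolynomial (Fin n) K)) '' E) =
      (fun s => monomial s (1 : K)) '' (ex '' E) := by
    rw [Set.image_image]
    exact Set.image_congr fun A _ => prod_X_eq A
  rw [h1, mem_ideal_span_monomial_image]
  constructor
  · intro h c hc
    obtain ⟨_, ⟨A, hA, rfl⟩, h2⟩ := h c hc
    exact ⟨A, hA, (ex_le_iff A c).1 h2⟩
  · intro h c hc
    obtain ⟨A, hA, h2⟩ := h c hc
    exact ⟨_, ⟨A, hA, rfl⟩, (ex_le_iff A c).2 h2⟩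

/-- the generators of the ideal -/
def gens (L : Fin n → Prop) [DecidablePred L] : Set (Finset (Fin n)) :=
  {A | (∃ i j, L i ∧ ¬ L j ∧ A = {i, j}) ∨ A = Finset.univ.filter L ∨
    A = Finset.univ.filter fun i => ¬ L i}

/-- the ideal -/
noncomputable def II (K : Type*) [Field K] (L : Fin n → Prop) [DecidablePred L] :
    Ideal (MvPolynomial (Fin n) K) :=
  Ideal.span ((fun A : Finset (Fin n) => (∏ i ∈ A, X i : MvPolynomial (Fin n) K)) '' gens L)

lemma mem_II {L : Fin n → Prop} [DecidablePred L] {f : MvPolynomial (Fin n) K} :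
    f ∈ II K L ↔ ∀ c ∈ f.support, Bad L c := by
  classical
  rw [II, mem_span_iff]
  refine forall₂_congr fun c _ => ?_
  constructor
  · rintro ⟨A, ⟨i, j, hi, hj, rfl⟩ | rfl | rfl, h⟩
    · exact Or.inl ⟨i, j, hi, hj, h i (by simp), h j (by simp)⟩
    · exact Or.inr (Or.inl fun i hi => h i (by simp [hi]))
    · exact Or.inr (Or.inr fun i hi => h i (by simp [hi]))
  · rintro (⟨i, j, hi, hj, h1, h2⟩ | h | h)
    · refine ⟨{i, j}, Or.inl ⟨i, j, hi, hj, rfl⟩, ?_⟩
      intro l hl
      rw [Finset.mem_insert, Finset.mem_singleton] at hl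
      rcases hl with rfl | rfl
      · exact h1
      · exact h2
    · exact ⟨_, Or.inr (Or.inl rfl), fun i hi => h i (Finset.mem_filter.1 hi).2⟩
    · exact ⟨_, Or.inr (Or.inr rfl), fun i hi => h i (Finset.mem_filter.1 hi).2⟩

lemma support_X_mul {f : MvPolynomial (Fin n) K} {c : Fin n →₀ ℕ} (hc : c ∈ f.support)
    (j : Fin n) : c + Finsupp.single j 1 ∈ (X j * f).support := by
  classical
  rw [mem_support_iff] at hc ⊢
  rw [mul_comm, coeff_mul_X]
  exact hc

lemma monomial_mem_II {L : Fin n → Prop} [DecidablePred L] {c : Fin n →₀ ℕ} (h : Bad L c) :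
    (monomial c 1 : MvPolynomial (Fin n) K) ∈ II K L := by
  classical
  rw [mem_II]
  intro c' hc'
  have := support_monomial_subset hc'
  rw [Finset.mem_singleton] at this
  rwa [this]

lemma one_notMem_II {L : Fin n → Prop} [DecidablePred L] (hL : ∃ i, L i) (hR : ∃ j, ¬ L j) :
    (1 : MvPolynomial (Fin n) K) ∉ II K L := by
  classical
  rw [mem_II]
  push Not
  refine ⟨0, by simp, ?_⟩
  obtain ⟨i, hi⟩ := hL
  obtain ⟨j, hj⟩ := hR
  rintro (⟨_, _, _, _, h, _⟩ | h | h)
  · exact h rfl
  · exact h i hi rfl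
  · exact h j hj rfl

/-- lower bound for the v-number -/
lemma v_ge {L : Fin n → Prop} [DecidablePred L] {d : ℕ} (hd : 1 ≤ d)
    (hL : d + 1 ≤ (Finset.univ.filter L).card)
    (hR : d + 1 ≤ (Finset.univ.filter fun i => ¬ L i).card) {e : ℕ}
    {f : MvPolynomial (Fin n) K} (hf : f.IsHomogeneous e)
    (hp : ((II K L).colon {f}).IsPrime) : d ≤ e := by
  classical
  have hmem : ∀ g, g ∈ (II K L).colon {f} ↔ g * f ∈ II K L := by
    intro g
    rw [Submodule.mem_colon_singleton, smul_eq_mul]
  have hfI : f ∉ II K L := by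
    intro h
    apply hp.ne_top
    rw [Ideal.eq_top_iff_one, hmem, one_mul]
    exact h
  rw [mem_II] at hfI
  push Not at hfI
  obtain ⟨c, hc, hcb⟩ := hfI
  have hdeg : c.degree = e := by
    have := hf (mem_support_iff.1 hc)
    rwa [show (1 : Fin n → ℕ) = fun _ => 1 from rfl, ← Finsupp.degree_eq_weight_one] at this
  have hX : ∀ l, X l ∈ (II K L).colon {f} → Bad L (c + Finsupp.single l 1) := by
    intro l hl
    rw [hmem, mem_II] at hl
    exact hl _ (support_X_mul hc l)
  have hI : ∀ c', Bad L c' → (monomial c' 1 : MvPolynomial (Fin n) K) ∈ (II K L).colon {f} := by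
    intro c' h
    rw [hmem]
    exact Ideal.mul_mem_right _ _ (monomial_mem_II h)
  have hprod : ∀ A : Finset (Fin n), Bad L (ex A) → ∃ i ∈ A, X i ∈ (II K L).colon {f} := by
    intro A hA
    have h1 := hI _ hA
    rw [← prod_X_eq] at h1
    exact (Ideal.IsPrime.prod_mem_iff (hp := hp)).1 h1
  have hpair : ∀ i j, L i → ¬ L j → X i ∈ (II K L).colon {f} ∨ X j ∈ (II K L).colon {f} := by
    intro i j hi hj
    obtain ⟨l, hl, h1⟩ := hprod {i, j} (Or.inl ⟨i, j, hi, hj, by rw [ex_apply]; simp,
      by rw [ex_apply]; simp⟩)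
    rw [Finset.mem_insert, Finset.mem_singleton] at hl
    rcases hl with rfl | rfl
    · exact Or.inl h1
    · exact Or.inr h1
  rw [← hdeg]
  by_cases hall : ∀ j, ¬ L j → X j ∈ (II K L).colon {f}
  · obtain ⟨k, hk, hkp⟩ := hprod (Finset.univ.filter L) (Or.inr (Or.inl fun i hi => by
      rw [ex_apply]; simp [hi]))
    exact degree_ge hd hL hR c hcb k (Finset.mem_filter.1 hk).2 (hX k hkp)
      (fun j hj => hX j (hall j hj))
  · push Not at hall
    obtain ⟨j, hj, hjp⟩ := hall
    have hall' : ∀ i, L i → X i ∈ (II K L).colon {f} := fun i hi =>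
      (hpair i j hi hj).resolve_right hjp
    obtain ⟨k, hk, hkp⟩ := hprod (Finset.univ.filter fun i => ¬ L i) (Or.inr (Or.inr fun i hi => by
      rw [ex_apply]; simp [hi]))
    refine degree_ge (L := fun i => ¬ L i) hd hR (by simpa using hL) c
      (fun h => hcb ((Bad_not L c).1 h)) k (Finset.mem_filter.1 hk).2
      ((Bad_not L _).2 (hX k hkp)) (fun i hi => (Bad_not L _).2 (hX i (hall' i (not_not.1 hi))))

/-- the colon ideal of a facet -/
lemma colon_eq {L : Fin n → Prop} [DecidablePred L]
    (hL : 2 ≤ (Finset.univ.filter L).card) (hR : ∃ j, ¬ L j) (i0 : Fin n) (hi0 : L i0) :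
    (II K L).colon {(∏ i ∈ (Finset.univ.filter L).erase i0, X i : MvPolynomial (Fin n) K)} =
      Ideal.span (X '' {j | ¬ L j ∨ j = i0}) := by
  classical
  ext g
  rw [Submodule.mem_colon_singleton, smul_eq_mul, mem_II, mem_ideal_span_X_image, prod_X_eq]
  have hF : ∃ i1, L i1 ∧ i1 ≠ i0 := by
    obtain ⟨a, ha, b, hb, hab⟩ := Finset.one_lt_card.1 (show 1 < (Finset.univ.filter L).card by
      omega)
    by_cases h : a = i0
    · exact ⟨b, (Finset.mem_filter.1 hb).2, fun h' => hab (h.trans h'.symm)⟩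
    · exact ⟨a, (Finset.mem_filter.1 ha).2, h⟩
  obtain ⟨i1, hi1, hi10⟩ := hF
  have key : ∀ c : Fin n →₀ ℕ, Bad L (c + ex ((Finset.univ.filter L).erase i0)) ↔
      ∃ i ∈ {j | ¬ L j ∨ j = i0}, c i ≠ 0 := by
    intro c
    have hval : ∀ i, (c + ex ((Finset.univ.filter L).erase i0)) i =
        c i + if L i ∧ i ≠ i0 then 1 else 0 := by
      intro i
      rw [Finsupp.add_apply, ex_apply]
      simp [and_comm]
    constructor
    · rintro (⟨i, j, hi, hj, -, h2⟩ | h | h)
      · rw [hval, if_neg (fun h => hj h.1), add_zero] at h2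
        exact ⟨j, Or.inl hj, h2⟩
      · have := h i0 hi0
        rw [hval, if_neg (fun h => h.2 rfl), add_zero] at this
        exact ⟨i0, Or.inr rfl, this⟩
      · obtain ⟨j, hj⟩ := hR
        have := h j hj
        rw [hval, if_neg (fun h => hj h.1), add_zero] at this
        exact ⟨j, Or.inl hj, this⟩
    · rintro ⟨i, hi | rfl, hci⟩
      · refine Or.inl ⟨i1, i, hi1, hi, ?_, ?_⟩
        · rw [hval, if_pos ⟨hi1, hi10⟩]; omega
        · rw [hval]; omega
      · refine Or.inr (Or.inl fun l hl => ?_)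
        rw [hval]
        by_cases h : l = i
        · subst h; omega
        · rw [if_pos ⟨hl, h⟩]; omega
  constructor
  · intro h c hc
    rw [← key]
    apply h
    rw [mem_support_iff] at hc ⊢
    rw [coeff_mul_monomial, mul_one]
    exact hc
  · intro h c hc
    rw [mem_support_iff] at hc
    rw [coeff_mul_monomial'] at hc
    split_ifs at hc with hle
    · rw [mul_one] at hc
      have h1 := h _ (mem_support_iff.2 hc)
      rw [← key, tsub_add_cancel_of_le hle] at h1
      exact h1
    · exact absurd rfl hc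

/-- every regular sequence has at most one term -/
lemma length_le_one {L : Fin n → Prop} [DecidablePred L]
    (hL : 2 ≤ (Finset.univ.filter L).card)
    (hR : 2 ≤ (Finset.univ.filter fun i => ¬ L i).card)
    (rs : List (MvPolynomial (Fin n) K))
    (hmem : ∀ x ∈ rs, x ∈ Ideal.span (Set.range (X : Fin n → MvPolynomial (Fin n) K)))
    (hreg : RingTheory.Sequence.IsWeaklyRegular (MvPolynomial (Fin n) K ⧸ II K L) rs) :
    rs.length ≤ 1 := by
  classical
  match rs, hmem, hreg with
  | [], _, _ => simp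
  | [_], _, _ => simp
  | a :: b :: l, hmem, hreg =>
    exfalso
    rw [RingTheory.Sequence.isWeaklyRegular_cons_iff] at hreg
    obtain ⟨ha, hreg⟩ := hreg
    rw [RingTheory.Sequence.isWeaklyRegular_cons_iff] at hreg
    obtain ⟨hb, -⟩ := hreg
    have hsm : ∀ r z : MvPolynomial (Fin n) K, r • (Ideal.Quotient.mk (II K L) z) =
        Ideal.Quotient.mk (II K L) (r * z) := fun r z => rfl
    have haI : ∀ z, a * z ∈ II K L → z ∈ II K L := by
      intro z hz
      rw [← Ideal.Quotient.eq_zero_iff_mem] at hz ⊢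
      apply ha
      change a • (Ideal.Quotient.mk (II K L) z) = a • (0 : MvPolynomial (Fin n) K ⧸ II K L)
      rw [smul_zero, hsm]
      exact hz
    -- the maximal ideal is the sum of two ideals whose product is in `I`
    have hsplit : ∀ x ∈ Ideal.span (Set.range (X : Fin n → MvPolynomial (Fin n) K)),
        ∃ g h, x = g + h ∧ (∀ j, ¬ L j → X j * g ∈ II K L) ∧ (∀ i, L i → X i * h ∈ II K L) := by
      intro x hx
      refine Submodule.span_induction ?_ ?_ ?_ ?_ hx
      · rintro _ ⟨i, rfl⟩
        by_cases hi : L i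
        · refine ⟨X i, 0, by simp, fun j hj => ?_, fun j _ => by simp⟩
          have : (X j * X i : MvPolynomial (Fin n) K) = monomial (ex {i, j}) 1 := by
            rw [← prod_X_eq, Finset.prod_pair (fun h : i = j => hj (h ▸ hi)), mul_comm]
          rw [this]
          exact monomial_mem_II (Or.inl ⟨i, j, hi, hj, by rw [ex_apply]; simp,
            by rw [ex_apply]; simp⟩)
        · refine ⟨0, X i, by simp, fun j _ => by simp, fun j hj => ?_⟩
          have : (X j * X i : MvPolynomial (Fin n) K) = monomial (ex {j, i}) 1 := by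
            rw [← prod_X_eq, Finset.prod_pair (fun h : j = i => hi (h ▸ hj))]
          rw [this]
          exact monomial_mem_II (Or.inl ⟨j, i, hj, hi, by rw [ex_apply]; simp,
            by rw [ex_apply]; simp⟩)
      · exact ⟨0, 0, by simp, by simp, by simp⟩
      · rintro x y - - ⟨g, h, rfl, h1, h2⟩ ⟨g', h', rfl, h3, h4⟩
        refine ⟨g + g', h + h', by ring, fun j hj => ?_, fun i hi => ?_⟩
        · rw [mul_add]; exact Ideal.add_mem _ (h1 j hj) (h3 j hj)
        · rw [mul_add]; exact Ideal.add_mem _ (h2 i hi) (h4 i hi)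
      · rintro r x - ⟨g, h, rfl, h1, h2⟩
        refine ⟨r * g, r * h, by rw [smul_eq_mul]; ring, fun j hj => ?_, fun i hi => ?_⟩
        · rw [show X j * (r * g) = r * (X j * g) by ring]; exact Ideal.mul_mem_left _ _ (h1 j hj)
        · rw [show X i * (r * h) = r * (X i * h) by ring]; exact Ideal.mul_mem_left _ _ (h2 i hi)
    obtain ⟨g, h, hgh, hg, hh⟩ := hsplit a (hmem a (by simp))
    -- `b g ∈ I + (a)`
    have hXg : ∀ l, ∃ s, X l * g - a * s ∈ II K L := by
      intro l
      by_cases hl : L l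
      · refine ⟨X l, ?_⟩
        have : X l * g - a * X l = -(X l * h) := by rw [hgh]; ring
        rw [this]
        exact neg_mem (hh l hl)
      · exact ⟨0, by rw [mul_zero, sub_zero]; exact hg l hl⟩
    have hbg : ∀ x ∈ Ideal.span (Set.range (X : Fin n → MvPolynomial (Fin n) K)),
        ∃ s, x * g - a * s ∈ II K L := by
      intro x hx
      refine Submodule.span_induction ?_ ?_ ?_ ?_ hx
      · rintro _ ⟨i, rfl⟩
        exact hXg i
      · exact ⟨0, by simp⟩
      · rintro x y - - ⟨s, hs⟩ ⟨s', hs'⟩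
        refine ⟨s + s', ?_⟩
        rw [show (x + y) * g - a * (s + s') = (x * g - a * s) + (y * g - a * s') by ring]
        exact Ideal.add_mem _ hs hs'
      · rintro r x - ⟨s, hs⟩
        refine ⟨r * s, ?_⟩
        rw [smul_eq_mul, show r * x * g - a * (r * s) = r * (x * g - a * s) by ring]
        exact Ideal.mul_mem_left _ _ hs
    obtain ⟨s, hs⟩ := hbg b (hmem b (by simp))
    -- hence `g ∈ I + (a)`
    have hgI : ∃ c, g - a * c ∈ II K L := by
      let M := MvPolynomial (Fin n) K ⧸ II K L
      have h1 : (Submodule.Quotient.mk (Ideal.Quotient.mk (II K L) g) : QuotSMulTop a M) = 0 := by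
        apply hb
        change b • (Submodule.Quotient.mk (Ideal.Quotient.mk (II K L) g) : QuotSMulTop a M) =
          b • (0 : QuotSMulTop a M)
        rw [smul_zero, ← Submodule.Quotient.mk_smul, Submodule.Quotient.mk_eq_zero,
          Submodule.mem_smul_pointwise_iff_exists]
        refine ⟨Ideal.Quotient.mk (II K L) s, Submodule.mem_top, ?_⟩
        rw [hsm, hsm, eq_comm, Ideal.Quotient.eq]
        exact hs
      rw [Submodule.Quotient.mk_eq_zero, Submodule.mem_smul_pointwise_iff_exists] at h1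
      obtain ⟨c, -, hc⟩ := h1
      obtain ⟨c, rfl⟩ := Ideal.Quotient.mk_surjective c
      refine ⟨c, ?_⟩
      rw [hsm, eq_comm, Ideal.Quotient.eq] at hc
      exact hc
    obtain ⟨c, hc⟩ := hgI
    obtain ⟨i0, hi0⟩ : ∃ i, L i := by
      obtain ⟨i, hi⟩ := Finset.card_pos.1 (show 0 < (Finset.univ.filter L).card by omega)
      exact ⟨i, (Finset.mem_filter.1 hi).2⟩
    obtain ⟨j0, hj0⟩ : ∃ j, ¬ L j := by
      obtain ⟨i, hi⟩ := Finset.card_pos.1
        (show 0 < (Finset.univ.filter fun i => ¬ L i).card by omega)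
      exact ⟨i, (Finset.mem_filter.1 hi).2⟩
    -- `x (c - 1) ∈ I` and `y c ∈ I`
    have e1 : X i0 * (c - 1) ∈ II K L := by
      apply haI
      have : a * (X i0 * (c - 1)) = -(X i0 * h) - X i0 * (g - a * c) := by
        rw [hgh]; ring
      rw [this]
      exact Ideal.sub_mem _ (neg_mem (hh i0 hi0)) (Ideal.mul_mem_left _ _ hc)
    have e2 : X j0 * c ∈ II K L := by
      apply haI
      have : a * (X j0 * c) = X j0 * g - X j0 * (g - a * c) := by ring
      rw [this]
      exact Ideal.sub_mem _ (hg j0 hj0) (Ideal.mul_mem_left _ _ hc)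
    have hnb : ∀ l, ¬ Bad L (Finsupp.single l 1) := by
      intro l
      rintro (⟨i, j, hi, hj, h1, h2⟩ | h1 | h1)
      · rw [Finsupp.single_apply_ne_zero] at h1 h2
        exact hj (by rw [h2.1, ← h1.1]; exact hi)
      · obtain ⟨a, ha, b, hb, hab⟩ := Finset.one_lt_card.1
          (show 1 < (Finset.univ.filter L).card by omega)
        have h2 := h1 a (Finset.mem_filter.1 ha).2
        have h3 := h1 b (Finset.mem_filter.1 hb).2
        rw [Finsupp.single_apply_ne_zero] at h2 h3
        exact hab (h2.1.trans h3.1.symm)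
      · obtain ⟨a, ha, b, hb, hab⟩ := Finset.one_lt_card.1
          (show 1 < (Finset.univ.filter fun i => ¬ L i).card by omega)
        have h2 := h1 a (Finset.mem_filter.1 ha).2
        have h3 := h1 b (Finset.mem_filter.1 hb).2
        rw [Finsupp.single_apply_ne_zero] at h2 h3
        exact hab (h2.1.trans h3.1.symm)
    have hcoef : ∀ (l : Fin n) (z : MvPolynomial (Fin n) K), X l * z ∈ II K L →
        coeff 0 z = 0 := by
      intro l z hz
      by_contra hne
      rw [mem_II] at hz
      have := hz (0 + Finsupp.single l 1) (support_X_mul (mem_support_iff.2 hne) l)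
      rw [zero_add] at this
      exact hnb l this
    have e3 := hcoef i0 _ e1
    have e4 := hcoef j0 _ e2
    rw [coeff_sub, e4, coeff_zero_one, zero_sub, neg_eq_zero] at e3
    exact one_ne_zero e3

end Pool.Agent.N93.VNum
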